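import Mathlib

/-!
# Module HLa (about 150 lines): the group ring argument (Mathlib only)

`L` is a number field Galois over `ℚ`, `A = AddMonoidAlgebra L L` (formal sums
`∑ a_γ [γ]`, coefficients and exponents in `L`), `ev : A → ℂ` evaluates `[γ]` at
`exp (ι γ)` for an embedding `ι : L → ℂ`.

PROOF. `G = L ≃ₐ[ℚ] L` (finite) acts on `A` by ring automorphisms `τ ∑ a_γ [γ] = ∑ τ(a_γ) [τ γ]`
(`AddMonoidAlgebra.mapDomainRingHom` composed with `AddMonoidAlgebra.mapRangeRingHom`); on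
coefficients `(τ x) (τ γ) = τ (x γ)`. `A` has no zero divisors (`L` is a `ℚ`-vector space, hence
`TwoUniqueSums L`: Mathlib.Algebra.Group.UniqueProds.VectorSpace, and
Mathlib.Algebra.MonoidAlgebra.NoZeroDivisors). Let `x₀ = [α] - β [0] ≠ 0` (`α ≠ 0`), `ev x₀ = 0`
by hypothesis. `x = ∏ τ, τ x₀`: nonzero (each `τ` is injective), `ev x = 0` (factor `τ = 1`; `ev` is a
ring homomorphism: `AddMonoidAlgebra.lift` or `liftNCRingHom`), `τ x = x` (reindexing the product).
Take `γ₀` with `a = x γ₀ ≠ 0` and `y = ∑ τ, single (- τ γ₀) (τ a⁻¹)`; `τ y = y`. `z = x y`: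
`ev z = 0`, `τ z = z`, and the coefficient of `z` at `0` is
`∑ τ, x (τ γ₀) τ(a⁻¹) = ∑ τ, τ(a) τ(a⁻¹) = card G ≠ 0`. Take `c = z` as a finitely supported function.
-/

set_option autoImplicit false

namespace Pool.Agent.H68.SI

section

variable {L : Type*} [Field L] [NumberField L]

/-- the action of the Galois group on the group ring -/
private noncomputable def hlaT (τ : L ≃ₐ[ℚ] L) : AddMonoidAlgebra L L →+* AddMonoidAlgebra L L :=
  (AddMonoidAlgebra.mapRingHom L (τ : L →+* L)).comp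
    (AddMonoidAlgebra.mapDomainRingHom L (τ : L →+ L))

private theorem hlaT_single (τ : L ≃ₐ[ℚ] L) (γ a : L) :
    hlaT τ (AddMonoidAlgebra.single γ a) = AddMonoidAlgebra.single (τ γ) (τ a) := by
  unfold hlaT
  rw [RingHom.comp_apply]
  simp

private theorem hlaT_coeff (τ : L ≃ₐ[ℚ] L) (x : AddMonoidAlgebra L L) (γ : L) :
    (hlaT τ x).coeff (τ γ) = τ (x.coeff γ) := by
  classical
  induction x using AddMonoidAlgebra.induction_linear with
  | zero => simp
  | add x y hx hy =>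
    rw [map_add, AddMonoidAlgebra.coeff_add, AddMonoidAlgebra.coeff_add, Finsupp.add_apply,
      Finsupp.add_apply, hx, hy, map_add]
  | single m r =>
    rw [hlaT_single, AddMonoidAlgebra.coeff_single, AddMonoidAlgebra.coeff_single,
      Finsupp.single_apply, Finsupp.single_apply]
    by_cases h : m = γ
    · rw [if_pos h, if_pos (congrArg τ h)]
    · rw [if_neg h, if_neg (fun e => h (τ.injective e)), map_zero]

private theorem hlaT_mul (σ τ : L ≃ₐ[ℚ] L) (x : AddMonoidAlgebra L L) :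
    hlaT σ (hlaT τ x) = hlaT (σ * τ) x := by
  induction x using AddMonoidAlgebra.induction_linear with
  | zero => simp
  | add x y hx hy => rw [map_add, map_add, map_add, hx, hy]
  | single m r =>
    rw [hlaT_single, hlaT_single, hlaT_single]
    rfl

private theorem hlaT_one (x : AddMonoidAlgebra L L) : hlaT (1 : L ≃ₐ[ℚ] L) x = x := by
  induction x using AddMonoidAlgebra.induction_linear with
  | zero => simp
  | add x y hx hy => rw [map_add, hx, hy]
  | single m r =>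
    rw [hlaT_single]
    rfl

/-- the exponential character -/
private noncomputable def hlaG (ι : L →+* ℂ) : Multiplicative L →* ℂ where
  toFun := fun γ => Complex.exp (ι γ.toAdd)
  map_one' := by simp
  map_mul' := fun a b => by
    rw [toAdd_mul, map_add, Complex.exp_add]

/-- evaluation -/
private noncomputable def hlaE (ι : L →+* ℂ) : AddMonoidAlgebra L L →+* ℂ :=
  AddMonoidAlgebra.liftNCRingHom ι (hlaG ι) fun _ _ => Commute.all _ _

private theorem hlaE_single (ι : L →+* ℂ) (γ a : L) :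
    hlaE ι (AddMonoidAlgebra.single γ a) = ι a * Complex.exp (ι γ) := by
  unfold hlaE
  rw [AddMonoidAlgebra.liftNCRingHom_single]
  rfl

private theorem hlaE_apply (ι : L →+* ℂ) (x : AddMonoidAlgebra L L) :
    hlaE ι x = ∑ γ ∈ x.coeff.support, ι (x.coeff γ) * Complex.exp (ι γ) := by
  have h1 : x = ∑ γ ∈ x.coeff.support, AddMonoidAlgebra.single γ (x.coeff γ) := by
    apply AddMonoidAlgebra.coeff_injective
    rw [AddMonoidAlgebra.coeff_sum]
    simp only [AddMonoidAlgebra.coeff_single]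
    exact (Finsupp.sum_single x.coeff).symm
  conv_lhs => rw [h1]
  rw [map_sum]
  exact Finset.sum_congr rfl fun γ _ => hlaE_single ι γ _

end

theorem hl_group {L : Type*} [Field L] [NumberField L] [IsGalois ℚ L] (ι : L →+* ℂ) {α β : L}
    (h0 : α ≠ 0) (h : Complex.exp (ι α) = ι β) :
    ∃ c : L →₀ L, c 0 ≠ 0 ∧ (∃ m : ℚ, c 0 = algebraMap ℚ L m) ∧
      (∀ (τ : L ≃ₐ[ℚ] L) (γ : L), c (τ γ) = τ (c γ)) ∧
      ∑ γ ∈ c.support, ι (c γ) * Complex.exp (ι γ) = 0 := by
  classical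
  -- the first element
  set x₀ : AddMonoidAlgebra L L := AddMonoidAlgebra.single α 1 - AddMonoidAlgebra.single 0 β
    with hx₀
  have hx₀c : x₀.coeff α = 1 := by
    have h1 : x₀ + AddMonoidAlgebra.single 0 β = AddMonoidAlgebra.single α 1 := by
      rw [hx₀, sub_add_cancel]
    have h2 := congrArg (fun y : AddMonoidAlgebra L L => y.coeff α) h1
    simp only [AddMonoidAlgebra.coeff_add, AddMonoidAlgebra.coeff_single, Finsupp.add_apply,
      Finsupp.single_apply, if_neg (Ne.symm h0), if_true, add_zero] at h2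
    exact h2
  have hx₀e : hlaE ι x₀ = 0 := by
    rw [hx₀, map_sub, hlaE_single, hlaE_single, map_one, one_mul, map_zero, Complex.exp_zero,
      mul_one, h, sub_self]
  -- the norm
  set x : AddMonoidAlgebra L L := ∏ τ : L ≃ₐ[ℚ] L, hlaT τ x₀ with hx
  have hxT : ∀ σ : L ≃ₐ[ℚ] L, hlaT σ x = x := by
    intro σ
    rw [hx, map_prod]
    simp only [hlaT_mul]
    exact Equiv.prod_comp (Equiv.mulLeft σ) (fun τ => hlaT τ x₀)
  have hx0 : x ≠ 0 := by
    rw [hx, Finset.prod_ne_zero_iff]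
    intro τ _ h1
    have h2 := hlaT_coeff τ x₀ α
    rw [h1, hx₀c, map_one] at h2
    simp at h2
  have hxe : hlaE ι x = 0 := by
    rw [hx, map_prod]
    refine Finset.prod_eq_zero (Finset.mem_univ (1 : L ≃ₐ[ℚ] L)) ?_
    rw [hlaT_one, hx₀e]
  have hxc : ∀ (τ : L ≃ₐ[ℚ] L) (γ : L), x.coeff (τ γ) = τ (x.coeff γ) := by
    intro τ γ
    have h1 := hlaT_coeff τ x γ
    rwa [hxT] at h1
  obtain ⟨γ₀, hγ₀⟩ : ∃ γ, x.coeff γ ≠ 0 := by
    by_contra hcon
    push Not at hcon
    apply hx0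
    apply AddMonoidAlgebra.coeff_injective
    ext γ
    rw [hcon γ]
    rfl
  set a : L := x.coeff γ₀ with ha
  set y : AddMonoidAlgebra L L := ∑ τ : L ≃ₐ[ℚ] L, AddMonoidAlgebra.single (-(τ γ₀)) (τ a⁻¹)
    with hy
  have hyT : ∀ σ : L ≃ₐ[ℚ] L, hlaT σ y = y := by
    intro σ
    rw [hy, map_sum]
    have h1 : ∀ τ : L ≃ₐ[ℚ] L, hlaT σ (AddMonoidAlgebra.single (-(τ γ₀)) (τ a⁻¹))
        = AddMonoidAlgebra.single (-((σ * τ) γ₀)) ((σ * τ) a⁻¹) := by
      intro τ
      rw [hlaT_single, map_neg]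
      rfl
    simp only [h1]
    exact Equiv.sum_comp (Equiv.mulLeft σ)
      (fun τ : L ≃ₐ[ℚ] L => AddMonoidAlgebra.single (-(τ γ₀)) (τ a⁻¹))
  have hz0 : (x * y).coeff 0 = (Fintype.card (L ≃ₐ[ℚ] L) : L) := by
    rw [hy, Finset.mul_sum, AddMonoidAlgebra.coeff_sum, Finsupp.finsetSum_apply]
    have h1 : ∀ τ : L ≃ₐ[ℚ] L,
        (x * AddMonoidAlgebra.single (-(τ γ₀)) (τ a⁻¹)).coeff 0 = 1 := by
      intro τ
      rw [AddMonoidAlgebra.coeff_mul_single_apply]
      have h2 : (0 : L) + - -(τ γ₀) = τ γ₀ := by ring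
      rw [h2, hxc, ← map_mul, ← ha, mul_inv_cancel₀ hγ₀, map_one]
    rw [Finset.sum_congr rfl fun τ _ => h1 τ]
    simp
  have hcard : (Fintype.card (L ≃ₐ[ℚ] L) : L) ≠ 0 := by
    have h1 : Fintype.card (L ≃ₐ[ℚ] L) ≠ 0 := Fintype.card_ne_zero
    exact_mod_cast h1
  refine ⟨(x * y).coeff, ?_, ⟨(Fintype.card (L ≃ₐ[ℚ] L) : ℚ), ?_⟩, ?_, ?_⟩
  · rw [hz0]
    exact hcard
  · rw [hz0, map_natCast]
  · intro τ γ
    have h1 := hlaT_coeff τ (x * y) γ
    rwa [map_mul, hxT, hyT] at h1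
  · rw [← hlaE_apply, map_mul, hxe, zero_mul]

end Pool.Agent.H68.SI
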