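import Pool.Agent.H68.SI.HLa

/-!
# Module HLb (about 140 lines): integral form (Mathlib only)

PROOF. `α, β` algebraic over `ℚ`, `exp α = β`, `α ≠ 0`. Let `L` be the subfield of `ℂ` generated over
`ℚ` by all complex roots of `minpoly ℚ α * minpoly ℚ β`: a number field, Galois over `ℚ` (e.g.
`IntermediateField.adjoin ℚ (rootSet _ ℂ)` with `IsSplittingField`, `IsGalois.of_separable_splitting_field`;
or `normalClosure`), `ι` the inclusion. Take `c` from `hl_group`. There is an integer `N ≠ 0` with all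
`N c_γ` integral over `ℤ` (`exists_integral_multiples` or `IsAlgebraic.exists_integral_multiple`), and
`N c_0` an integer (also multiply by the denominator of `m`). Put `m' = N c_0`, `S` = image under
`ι` of `c.support \ {0}`, `c' (ι γ) = ι (N c_γ)` (extend by `0`). Rationality: for `g ∈ ℤ[X]` the
element `∑ γ, N c_γ g(γ)` of `L` (sum over `c.support \ {0}`) is fixed by every `τ` (reindex `γ ↦ τ γ`, `g`
has rational coefficients), so it is in `ℚ` (`IsGalois.mem_bot_iff_fixed` or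
`InfiniteGalois`/`IsGalois.tfae`).
-/

set_option autoImplicit false

namespace Pool.Agent.H68.SI

open Polynomial

private lemma hlb_field {α β : ℂ} (hα : IsAlgebraic ℚ α) (hβ : IsAlgebraic ℚ β) :
    ∃ (L : Type) (_ : Field L) (_ : NumberField L) (_ : IsGalois ℚ L) (ι : L →+* ℂ) (a b : L),
      ι a = α ∧ ι b = β := by
  classical
  let p : ℚ[X] := minpoly ℚ α * minpoly ℚ β
  have hp : p ≠ 0 := mul_ne_zero (minpoly.ne_zero hα.isIntegral) (minpoly.ne_zero hβ.isIntegral)
  let K : IntermediateField ℚ ℂ := IntermediateField.adjoin ℚ (p.rootSet ℂ)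
  have hsp : p.IsSplittingField ℚ K :=
    IntermediateField.adjoin_rootSet_isSplittingField (IsAlgClosed.splits _)
  have hfin : FiniteDimensional ℚ K := Polynomial.IsSplittingField.finiteDimensional K p
  have hnorm : Normal ℚ K := Normal.of_isSplittingField p
  have hgal : IsGalois ℚ K := { to_isSeparable := inferInstance, to_normal := hnorm }
  have ha : α ∈ K := by
    apply IntermediateField.subset_adjoin
    rw [Polynomial.mem_rootSet]
    exact ⟨hp, by rw [map_mul, minpoly.aeval, zero_mul]⟩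
  have hb : β ∈ K := by
    apply IntermediateField.subset_adjoin
    rw [Polynomial.mem_rootSet]
    exact ⟨hp, by rw [map_mul, minpoly.aeval ℚ β, mul_zero]⟩
  have hc : CharZero K := inferInstance
  have hnf : NumberField K := by
    refine { to_charZero := hc, to_finiteDimensional := ?_ }
    convert hfin
  have hgal' : @IsGalois ℚ _ K _ DivisionRing.toRatAlgebra := by
    convert hgal
  exact ⟨K, inferInstance, hnf, hgal', K.val.toRingHom, ⟨α, ha⟩, ⟨β, hb⟩, rfl, rfl⟩

private lemma hlb_alg {L : Type} [Field L] [NumberField L] (ι : L →+* ℂ) (x : L) :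
    IsAlgebraic ℚ (ι x) := by
  have h : IsAlgebraic ℚ x := Algebra.IsAlgebraic.isAlgebraic x
  obtain ⟨p, hp, hx⟩ := h
  refine ⟨p, hp, ?_⟩
  have h1 : aeval (ι x) p = ι (aeval x p) := by
    have h2 := Polynomial.hom_eval₂ p (algebraMap ℚ L) ι x
    rw [Polynomial.aeval_def, Polynomial.aeval_def, h2]
    congr 1
    exact Subsingleton.elim _ _
  rw [h1, hx, map_zero]

private lemma hlb_aeval {L : Type} [Field L] (ι : L →+* ℂ) (x : L) (g : ℤ[X]) :
    aeval (ι x) g = ι (aeval x g) := by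
  have h2 := Polynomial.hom_eval₂ g (algebraMap ℤ L) ι x
  rw [Polynomial.aeval_def, Polynomial.aeval_def, h2]
  congr 1
  exact Subsingleton.elim _ _

private lemma hlb_int {L : Type} [Field L] (ι : L →+* ℂ) {x : L} (hx : IsIntegral ℤ x) :
    IsIntegral ℤ (ι x) := by
  obtain ⟨p, hp, h⟩ := hx
  refine ⟨p, hp, ?_⟩
  have h2 := Polynomial.hom_eval₂ p (algebraMap ℤ L) ι x
  rw [h, map_zero] at h2
  rw [h2]
  congr 1
  exact Subsingleton.elim _ _

theorem hl_integral {α β : ℂ} (hα : IsAlgebraic ℚ α) (hβ : IsAlgebraic ℚ β) (h0 : α ≠ 0)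
    (h : Complex.exp α = β) :
    ∃ (m : ℤ) (S : Finset ℂ) (c : ℂ → ℂ), m ≠ 0 ∧ (0 : ℂ) ∉ S ∧
      (∀ γ ∈ S, IsAlgebraic ℚ γ ∧ IsIntegral ℤ (c γ)) ∧
      (∀ g : ℤ[X], ∃ r : ℚ, ∑ γ ∈ S, c γ * aeval γ g = (r : ℂ)) ∧
      (m : ℂ) + ∑ γ ∈ S, c γ * Complex.exp γ = 0 := by
  classical
  obtain ⟨L, _, _, _, ι, a, b, rfl, rfl⟩ := hlb_field hα hβ
  have ha : a ≠ 0 := fun e => h0 (by rw [e, map_zero])
  obtain ⟨c, hc0, ⟨m, hm⟩, hτ, hsum⟩ := hl_group ι ha h
  have halg : Algebra.IsAlgebraic ℤ L := by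
    have h1 : Algebra.IsAlgebraic ℤ ℚ := IsLocalization.isAlgebraic ℚ (nonZeroDivisors ℤ)
    exact Algebra.IsAlgebraic.trans ℤ ℚ L
  obtain ⟨N, hN, hint⟩ := Algebra.IsAlgebraic.exists_integral_multiples ℤ (c.support.image c)
  have hint' : ∀ γ, IsIntegral ℤ ((N : L) * c γ) := by
    intro γ
    by_cases hγ : c γ = 0
    · rw [hγ, mul_zero]
      exact isIntegral_zero
    · have h1 := hint (c γ) (Finset.mem_image_of_mem _ (Finsupp.mem_support_iff.2 hγ))
      rwa [zsmul_eq_mul] at h1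
  have hNL : (N : L) ≠ 0 := Int.cast_ne_zero.2 hN
  -- the integer
  obtain ⟨z, hz⟩ : ∃ z : ℤ, (z : ℚ) = N * m := by
    have h1 := hint' 0
    rw [hm] at h1
    have h2 : (N : L) * algebraMap ℚ L m = algebraMap ℚ L ((N : ℚ) * m) := by
      rw [map_mul, map_intCast]
    rw [h2, isIntegral_algebraMap_iff (algebraMap ℚ L).injective] at h1
    obtain ⟨z, hz⟩ := IsIntegrallyClosed.isIntegral_iff.1 h1
    exact ⟨z, by simpa using hz⟩
  have hm0 : m ≠ 0 := by
    rintro rfl
    rw [map_zero (algebraMap ℚ L)] at hm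
    exact hc0 hm
  have hz0 : z ≠ 0 := by
    rintro rfl
    have h1 : (N : ℚ) * m ≠ 0 := mul_ne_zero (Int.cast_ne_zero.2 hN) hm0
    exact h1 (by rw [← hz, Int.cast_zero])
  have hzL : (N : L) * c 0 = (z : L) := by
    rw [hm]
    have h2 : (N : L) * algebraMap ℚ L m = algebraMap ℚ L ((N : ℚ) * m) := by
      rw [map_mul, map_intCast]
    rw [h2, ← hz, map_intCast]
  -- the set and the coefficients
  let T : Finset L := c.support.erase 0
  let S : Finset ℂ := T.map ⟨ι, ι.injective⟩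
  let c' : ℂ → ℂ := Function.extend ι (fun γ => ι ((N : L) * c γ)) 0
  have hc' : ∀ γ : L, c' (ι γ) = ι ((N : L) * c γ) := fun γ => ι.injective.extend_apply _ _ γ
  have hS : ∀ F : ℂ → ℂ, ∑ γ ∈ S, F γ = ∑ γ ∈ T, F (ι γ) := by
    intro F
    rw [Finset.sum_map]
    rfl
  have hT : ∀ γ, γ ∈ T ↔ γ ≠ 0 ∧ c γ ≠ 0 := by
    intro γ
    rw [Finset.mem_erase, Finsupp.mem_support_iff]
  refine ⟨z, S, c', hz0, ?_, ?_, ?_, ?_⟩
  · intro hmem
    obtain ⟨γ, hγ, he⟩ := Finset.mem_map.1 hmem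
    have h1 : γ = 0 := ι.injective (by rw [map_zero]; exact he)
    exact ((hT γ).1 hγ).1 h1
  · intro γ hγ
    obtain ⟨δ, hδ, rfl⟩ := Finset.mem_map.1 hγ
    refine ⟨hlb_alg ι δ, ?_⟩
    show IsIntegral ℤ (c' (ι δ))
    rw [hc']
    exact hlb_int ι (hint' δ)
  · intro g
    have hfix : ∀ τ : L ≃ₐ[ℚ] L, τ (∑ γ ∈ T, (N : L) * c γ * aeval γ g) =
        ∑ γ ∈ T, (N : L) * c γ * aeval γ g := by
      intro τ
      rw [map_sum]
      refine Finset.sum_equiv τ.toEquiv ?_ ?_
      · intro γ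
        rw [hT, hT]
        show _ ↔ τ γ ≠ 0 ∧ c (τ γ) ≠ 0
        rw [hτ τ γ, map_ne_zero_iff τ τ.injective, map_ne_zero_iff τ τ.injective]
      · intro γ _
        show τ ((N : L) * c γ * aeval γ g) = (N : L) * c (τ γ) * aeval (τ γ) g
        have h3 : τ (aeval γ g) = aeval (τ γ) g := by
          have h2 := Polynomial.hom_eval₂ g (algebraMap ℤ L) (τ : L →+* L) γ
          rw [Polynomial.aeval_def, Polynomial.aeval_def]
          refine (Eq.trans h2 ?_)
          have h9 : (τ : L →+* L).comp (algebraMap ℤ L) = algebraMap ℤ L :=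
            Subsingleton.elim _ _
          rw [h9]
          rfl
        rw [map_mul, map_mul, map_intCast, hτ, h3]
    obtain ⟨r, hr⟩ := (IsGalois.mem_range_algebraMap_iff_fixed _).2 hfix
    refine ⟨r, ?_⟩
    rw [hS]
    have h4 : ∑ γ ∈ T, c' (ι γ) * aeval (ι γ) g =
        ι (∑ γ ∈ T, (N : L) * c γ * aeval γ g) := by
      rw [map_sum]
      refine Finset.sum_congr rfl fun γ _ => ?_
      rw [hc', hlb_aeval, ← map_mul]
    rw [h4, ← hr]
    simp
  · rw [hS]
    have h5 : ∑ γ ∈ T, c' (ι γ) * Complex.exp (ι γ) =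
        (N : ℂ) * ∑ γ ∈ T, ι (c γ) * Complex.exp (ι γ) := by
      rw [Finset.mul_sum]
      refine Finset.sum_congr rfl fun γ _ => ?_
      rw [hc', map_mul, map_intCast, mul_assoc]
    have h6 : (z : ℂ) = (N : ℂ) * ι (c 0) := by
      have h7 := congrArg ι hzL
      rw [map_mul, map_intCast, map_intCast] at h7
      exact h7.symm
    have h8 : ι (c 0) * Complex.exp (ι 0) + ∑ γ ∈ T, ι (c γ) * Complex.exp (ι γ) = 0 := by
      rw [← hsum]
      exact Finset.add_sum_erase _ (fun γ => ι (c γ) * Complex.exp (ι γ))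
        (Finsupp.mem_support_iff.2 hc0)
    rw [map_zero ι, Complex.exp_zero, mul_one] at h8
    rw [h5, h6, ← mul_add, h8, mul_zero]

end Pool.Agent.H68.SI
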