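import Pool.Agent.H68.SI.HLb

/-!
# Module HLc (about 150 lines): the theorem of Hermite and Lindemann (Mathlib only)

PROOF of `hl_contra`. `f ∈ ℤ[X]`, `f ≠ 0`, with all `γ ∈ S` as roots and `f.eval 0 ≠ 0`: the product over `S` of
integer multiples of `minpoly ℚ γ` (constant coefficient nonzero as `γ ≠ 0`,
`minpoly.coeff_zero_ne_zero`). `b ∈ ℤ`, `b ≠ 0`, with `b γ` integral over `ℤ` for all `γ ∈ S`.
`LindemannWeierstrass.exp_polynomial_approx f`: `C` (a real number), for every large prime `p` an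
integer `n` with `p ∤ n` and `g = gp ∈ ℤ[X]` of degree `≤ N := p * f.natDegree` and
`‖n exp γ - p g(γ)‖ ≤ C ^ p / (p - 1)!` for `γ ∈ S`. `T = ∑ γ ∈ S, c γ * (b ^ N * aeval γ g)` is integral over
`ℤ` (`b ^ N g(γ) = ∑ g_i b^(N - i) (b γ)^i`) and rational, so an integer
(`IsIntegrallyClosed ℤ`; for a complex number that is rational and integral over `ℤ`). The integer
`b ^ N * n * m + p * T = - b ^ N * ∑ γ, c γ (n exp γ - p g(γ))` has absolute value
`≤ |b| ^ (p deg f) * (∑ ‖c γ‖) * C ^ p / (p - 1)! < 1` for large `p` (`FloorSemiring.tendsto_pow_div_factorial_atTop`-type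
lemma: `a ^ p / (p-1)! → 0`), so it is `0` and `p ∣ b ^ N n m`, impossible for a prime
`p > |b|, |m|` not dividing `n`.
`hermite_lindemann`: if `exp α` were algebraic apply `hl_integral` and `hl_contra`.
-/

set_option autoImplicit false

namespace Pool.Agent.H68.SI

open Polynomial

/-- an integral polynomial without the root `0` -/
private lemma HLc_poly {γ : ℂ} (hγ : IsAlgebraic ℚ γ) (h0 : γ ≠ 0) :
    ∃ f : ℤ[X], f.eval 0 ≠ 0 ∧ aeval γ f = 0 := by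
  obtain ⟨p, hp, hpγ⟩ := (IsFractionRing.isAlgebraic_iff ℤ ℚ ℂ).2 hγ
  obtain ⟨q, hq, hnd⟩ := Polynomial.exists_eq_pow_rootMultiplicity_mul_and_not_dvd p hp 0
  refine ⟨q, fun h => hnd (Polynomial.dvd_iff_isRoot.2 h), ?_⟩
  rw [hq, map_mul, map_pow] at hpγ
  rcases mul_eq_zero.1 hpγ with h | h
  · exfalso
    have h2 := eq_zero_of_pow_eq_zero h
    rw [map_sub, aeval_X, map_zero, map_zero, sub_zero] at h2
    exact h0 h2
  · exact h

/-- a common integral polynomial -/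
private lemma HLc_prod (S : Finset ℂ) (h0 : (0 : ℂ) ∉ S) (h1 : ∀ γ ∈ S, IsAlgebraic ℚ γ) :
    ∃ f : ℤ[X], f.eval 0 ≠ 0 ∧ ∀ γ ∈ S, γ ∈ f.aroots ℂ := by
  have hne : ∀ γ ∈ S, γ ≠ 0 := fun γ hγ h => h0 (h ▸ hγ)
  choose! F hF using fun γ hγ => HLc_poly (h1 γ hγ) (hne γ hγ)
  have he : (∏ γ ∈ S, F γ).eval 0 ≠ 0 := by
    rw [Polynomial.eval_prod]
    exact Finset.prod_ne_zero_iff.2 fun γ hγ => (hF γ hγ).1
  refine ⟨∏ γ ∈ S, F γ, he, fun γ hγ => ?_⟩
  rw [Polynomial.mem_aroots]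
  refine ⟨fun h => he (by rw [h, Polynomial.eval_zero]), ?_⟩
  rw [map_prod]
  exact Finset.prod_eq_zero hγ (hF γ hγ).2

/-- a common denominator -/
private lemma HLc_den (S : Finset ℂ) (h1 : ∀ γ ∈ S, IsAlgebraic ℚ γ) :
    ∃ b : ℤ, b ≠ 0 ∧ ∀ γ ∈ S, IsIntegral ℤ ((b : ℂ) * γ) := by
  classical
  have h2 : ∀ γ ∈ S, ∃ y : ℤ, y ≠ 0 ∧ IsIntegral ℤ (y • γ) := fun γ hγ =>
    ((IsFractionRing.isAlgebraic_iff ℤ ℚ ℂ).2 (h1 γ hγ)).exists_integral_multiple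
  choose! B hB using h2
  refine ⟨∏ γ ∈ S, B γ, Finset.prod_ne_zero_iff.2 fun γ hγ => (hB γ hγ).1, fun γ hγ => ?_⟩
  rw [← Finset.prod_erase_mul _ _ hγ, Int.cast_mul, mul_assoc]
  refine IsIntegral.mul (isIntegral_algebraMap (x := ∏ x ∈ S.erase γ, B x)) ?_
  have h3 := (hB γ hγ).2
  rwa [zsmul_eq_mul] at h3

/-- `b ^ N g(γ)` is integral -/
private lemma HLc_int {γ : ℂ} {b : ℤ} (hb : IsIntegral ℤ ((b : ℂ) * γ)) {g : ℤ[X]} {N : ℕ}
    (hN : g.natDegree ≤ N) : IsIntegral ℤ ((b : ℂ) ^ N * aeval γ g) := by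
  rw [Polynomial.aeval_eq_sum_range' (n := N + 1) (by omega), Finset.mul_sum]
  refine IsIntegral.sum _ fun i hi => ?_
  rw [Finset.mem_range] at hi
  have h1 : (b : ℂ) ^ N * (g.coeff i • γ ^ i) =
      ((g.coeff i * b ^ (N - i) : ℤ) : ℂ) * ((b : ℂ) * γ) ^ i := by
    rw [zsmul_eq_mul, mul_pow]
    push_cast
    have h2 : (b : ℂ) ^ N = (b : ℂ) ^ (N - i) * (b : ℂ) ^ i := by
      rw [← pow_add]
      congr 1
      omega
    rw [h2]
    ring
  rw [h1]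
  exact IsIntegral.mul (isIntegral_algebraMap (x := (g.coeff i * b ^ (N - i) : ℤ))) (hb.pow i)

/-- a rational integral complex number is an integer -/
private lemma HLc_rat {z : ℂ} (hz : IsIntegral ℤ z) {r : ℚ} (hr : z = (r : ℂ)) :
    ∃ t : ℤ, z = (t : ℂ) := by
  have h1 : IsIntegral ℤ (algebraMap ℚ ℂ r) := by
    have h2 : algebraMap ℚ ℂ r = z := by
      rw [hr]
      rfl
    rw [h2]
    exact hz
  rw [isIntegral_algebraMap_iff (algebraMap ℚ ℂ).injective] at h1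
  obtain ⟨t, ht⟩ := IsIntegrallyClosed.isIntegral_iff.1 h1
  refine ⟨t, ?_⟩
  rw [hr, ← ht]
  simp

theorem hl_contra (m : ℤ) (S : Finset ℂ) (c : ℂ → ℂ) (hm : m ≠ 0) (h0 : (0 : ℂ) ∉ S)
    (h1 : ∀ γ ∈ S, IsAlgebraic ℚ γ ∧ IsIntegral ℤ (c γ))
    (h2 : ∀ g : ℤ[X], ∃ r : ℚ, ∑ γ ∈ S, c γ * aeval γ g = (r : ℂ))
    (h3 : (m : ℂ) + ∑ γ ∈ S, c γ * Complex.exp γ = 0) : False := by
  obtain ⟨f, hf0, hf⟩ := HLc_prod S h0 fun γ hγ => (h1 γ hγ).1
  obtain ⟨b, hb0, hb⟩ := HLc_den S fun γ hγ => (h1 γ hγ).1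
  obtain ⟨C, hC⟩ := LindemannWeierstrass.exp_polynomial_approx f hf0
  set D : ℕ := f.natDegree with hD
  set A : ℝ := ∑ γ ∈ S, ‖c γ‖ with hA
  have hA0 : 0 ≤ A := Finset.sum_nonneg fun _ _ => norm_nonneg _
  -- a large prime
  have hlim := (FloorSemiring.tendsto_mul_pow_div_factorial_sub_atTop A
    (|(b : ℝ)| ^ D * |C|) 1).eventually (gt_mem_nhds one_pos)
  obtain ⟨P0, hP0⟩ := Filter.eventually_atTop.1 hlim
  obtain ⟨p, hp, hpp⟩ := Nat.exists_infinite_primes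
    (P0 + (f.eval 0).natAbs + b.natAbs + m.natAbs + 1)
  have hlt := hP0 p (by omega)
  obtain ⟨n, hn, g, hg, hgr⟩ := hC p (by omega) hpp
  set N : ℕ := p * D with hN
  have hgN : g.natDegree ≤ N := hg.trans (Nat.sub_le _ _)
  -- the integer `T`
  have hTi : IsIntegral ℤ (∑ γ ∈ S, c γ * ((b : ℂ) ^ N * aeval γ g)) :=
    IsIntegral.sum _ fun γ hγ => (h1 γ hγ).2.mul (HLc_int (hb γ hγ) hgN)
  obtain ⟨r, hr⟩ := h2 (Polynomial.C (b ^ N) * g)
  have hTr : ∑ γ ∈ S, c γ * ((b : ℂ) ^ N * aeval γ g) = (r : ℂ) := by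
    rw [← hr]
    refine Finset.sum_congr rfl fun γ _ => ?_
    rw [map_mul, aeval_C]
    simp
  obtain ⟨t, ht⟩ := HLc_rat hTi hTr
  -- the identity
  have hid : ((b ^ N * n * m + p * t : ℤ) : ℂ) =
      -(b : ℂ) ^ N * ∑ γ ∈ S, c γ * (n • Complex.exp γ - p • aeval γ g) := by
    have h4 : (m : ℂ) = -∑ γ ∈ S, c γ * Complex.exp γ := eq_neg_of_add_eq_zero_left h3
    push_cast
    rw [← ht, h4]
    have h5 : ∑ γ ∈ S, c γ * (n • Complex.exp γ - p • aeval γ g) =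
        (n : ℂ) * ∑ γ ∈ S, c γ * Complex.exp γ - (p : ℂ) * ∑ γ ∈ S, c γ * aeval γ g := by
      rw [Finset.mul_sum, Finset.mul_sum, ← Finset.sum_sub_distrib]
      refine Finset.sum_congr rfl fun γ _ => ?_
      rw [zsmul_eq_mul, nsmul_eq_mul]
      ring
    have h6 : ∑ γ ∈ S, c γ * ((b : ℂ) ^ N * aeval γ g) =
        (b : ℂ) ^ N * ∑ γ ∈ S, c γ * aeval γ g := by
      rw [Finset.mul_sum]
      refine Finset.sum_congr rfl fun γ _ => ?_
      ring
    rw [h5, h6]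
    ring
  -- the bound
  have hbd : ‖((b ^ N * n * m + p * t : ℤ) : ℂ)‖ < 1 := by
    rw [hid, norm_mul, norm_neg, norm_pow, Complex.norm_intCast]
    have h7 : ‖∑ γ ∈ S, c γ * (n • Complex.exp γ - p • aeval γ g)‖ ≤
        A * (|C| ^ p / ((p - 1).factorial : ℝ)) := by
      refine (norm_sum_le _ _).trans ?_
      rw [hA, Finset.sum_mul]
      refine Finset.sum_le_sum fun γ hγ => ?_
      rw [norm_mul]
      refine mul_le_mul_of_nonneg_left ?_ (norm_nonneg _)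
      refine (hgr (hf γ hγ)).trans ?_
      refine div_le_div_of_nonneg_right ?_ (Nat.cast_nonneg _)
      rw [← abs_pow]
      exact le_abs_self _
    refine lt_of_le_of_lt (mul_le_mul_of_nonneg_left h7 (by positivity)) ?_
    refine lt_of_eq_of_lt ?_ hlt
    rw [hN, mul_comm p D, pow_mul, mul_pow]
    ring
  have hz : b ^ N * n * m + p * t = 0 := by
    rw [Complex.norm_intCast] at hbd
    have h8 : |b ^ N * n * m + p * t| < 1 := by exact_mod_cast hbd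
    exact Int.abs_lt_one_iff.1 h8
  have hpi : Prime (p : ℤ) := Nat.prime_iff_prime_int.1 hpp
  have hdvd : (p : ℤ) ∣ b ^ N * n * m := by
    refine ⟨-t, ?_⟩
    linear_combination hz
  have hsmall : ∀ x : ℤ, x ≠ 0 → x.natAbs < p → ¬ (p : ℤ) ∣ x := by
    intro x hx hlt' hdv
    have h9 := Nat.le_of_dvd (Int.natAbs_pos.2 hx) (Int.natCast_dvd.1 hdv)
    omega
  rcases hpi.dvd_or_dvd hdvd with h | h
  · rcases hpi.dvd_or_dvd h with h' | h'
    · exact hsmall b hb0 (by omega) (hpi.dvd_of_dvd_pow h')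
    · exact hn h'
  · exact hsmall m hm (by omega) h

/-- Hermite-Lindemann -/
theorem hermite_lindemann {α : ℂ} (hα : IsAlgebraic ℚ α) (h0 : α ≠ 0) :
    Transcendental ℚ (Complex.exp α) := by
  intro hβ
  obtain ⟨m, S, c, h1, h2, h3, h4, h5⟩ := hl_integral hα hβ h0 rfl
  exact hl_contra m S c h1 h2 h3 h4 h5

end Pool.Agent.H68.SI
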