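import Pool.Agent.H68.SI.HLc
import Pool.Agent.H68.SC.JZero

/-!
# Module NoC (about 120 lines): `j_1` has no common zero with another `j_l`

PROOF. Let `t > 0`, `jl 1 t = 0`, i.e. `sin t = t cos t`; so `cos t ≠ 0` and `jl 0 t = sin t / t = cos t`.
Define `q : ℕ → ℚ[X]` (or `ℤ[X]`) by `q 0 = 1`, `q 1 = 0`, `q (l+2) = (2 l + 3) X q (l+1) - q l`; by the
recursion `jl l t = (q l).eval (1/t) * cos t`. For `l ≥ 2` `q l` has degree `l - 2` and leading
coefficient `- 5 · 7 ⋯ (2 l - 1) ≠ 0` (induction on pairs), in particular `q l ≠ 0`. If `jl l t = 0` for some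
`l ≥ 2` then `q l (1/t) = 0`, so `t` is algebraic over `ℚ`, so are `α = 2 t i` (nonzero) and
`(1 + i t) / (1 - i t)`. But `exp (2 i t) = (1 + i t) / (1 - i t)`:
`exp (it) (1 - i t) - exp (-it) (1 + i t) = 2 i (sin t - t cos t) = 0`. This contradicts
`hermite_lindemann`. For `l = 0`: `jl 0 t = cos t ≠ 0`.
-/

set_option autoImplicit false

namespace Pool.Agent.H68.SI

open Pool.Agent.H68.SC

open Polynomial in
/-- the polynomials with `jl l t = q l (1/t) cos t` at the zeros of `jl 1` -/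
private noncomputable def NoC_q : ℕ → ℤ[X]
  | 0 => 1
  | 1 => 0
  | (l + 2) => Polynomial.C (2 * (l : ℤ) + 3) * Polynomial.X * NoC_q (l + 1) - NoC_q l

private lemma NoC_cx (a : ℤ) : (Polynomial.C a * Polynomial.X).natDegree ≤ 1 := by
  refine Polynomial.natDegree_mul_le.trans ?_
  rw [Polynomial.natDegree_C, Polynomial.natDegree_X]

private lemma NoC_deg (k : ℕ) : ((NoC_q (k + 2)).natDegree ≤ k ∧ (NoC_q (k + 2)).coeff k ≠ 0) ∧
    ((NoC_q (k + 3)).natDegree ≤ k + 1 ∧ (NoC_q (k + 3)).coeff (k + 1) ≠ 0) := by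
  induction k with
  | zero =>
    have h2 : NoC_q (0 + 2) = -1 := by
      rw [NoC_q, NoC_q, NoC_q, mul_zero, zero_sub]
    have h3 : NoC_q (0 + 3) = Polynomial.C (-5) * Polynomial.X := by
      change NoC_q (1 + 2) = _
      rw [NoC_q, NoC_q.eq_2]
      change Polynomial.C (2 * ((1 : ℕ) : ℤ) + 3) * Polynomial.X * NoC_q (0 + 2) - 0 = _
      rw [h2]
      push_cast
      rw [sub_zero, mul_neg, mul_one, ← neg_mul, ← Polynomial.C_neg]
    rw [h2, h3]
    refine ⟨⟨?_, ?_⟩, ⟨?_, ?_⟩⟩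
    · rw [Polynomial.natDegree_neg, Polynomial.natDegree_one]
    · simp
    · exact NoC_cx _
    · simp
  | succ k ih =>
    refine ⟨ih.2, ?_⟩
    have h4 : NoC_q (k + 1 + 3) = Polynomial.C (2 * ((k + 2 : ℕ) : ℤ) + 3) * Polynomial.X *
        NoC_q (k + 3) - NoC_q (k + 2) := by
      change NoC_q ((k + 2) + 2) = _
      rw [NoC_q]
    rw [h4]
    constructor
    · refine (Polynomial.natDegree_sub_le _ _).trans (max_le ?_ (ih.1.1.trans (by omega)))
      refine Polynomial.natDegree_mul_le.trans ?_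
      have h5 := NoC_cx (2 * ((k + 2 : ℕ) : ℤ) + 3)
      have h6 := ih.2.1
      omega
    · rw [Polynomial.coeff_sub, mul_assoc, Polynomial.coeff_C_mul,
        show k + 1 + 1 = (k + 1) + 1 from rfl, Polynomial.coeff_X_mul,
        Polynomial.coeff_eq_zero_of_natDegree_lt (lt_of_le_of_lt ih.1.1 (by omega)), sub_zero]
      refine mul_ne_zero ?_ ih.2.2
      positivity

private lemma NoC_ne {l : ℕ} (hl : l ≠ 1) : NoC_q l ≠ 0 := by
  rcases l with _ | _ | k
  · rw [NoC_q]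
    exact one_ne_zero
  · exact absurd rfl hl
  · intro h
    have h1 := (NoC_deg k).1.2
    rw [h, Polynomial.coeff_zero] at h1
    exact h1 rfl

private lemma NoC_sin {t : ℝ} (ht : 0 < t) (h1 : jl 1 t = 0) : Real.sin t = t * Real.cos t := by
  rw [jl] at h1
  have h2 : t ≠ 0 := ht.ne'
  field_simp at h1
  linarith

private lemma NoC_eval {t : ℝ} (ht : 0 < t) (h1 : jl 1 t = 0) (l : ℕ) :
    jl l t = Polynomial.aeval (1 / t) (NoC_q l) * Real.cos t ∧
      jl (l + 1) t = Polynomial.aeval (1 / t) (NoC_q (l + 1)) * Real.cos t := by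
  induction l with
  | zero =>
    constructor
    · rw [jl, NoC_q, map_one, one_mul, NoC_sin ht h1]
      field_simp
    · change jl 1 t = Polynomial.aeval (1 / t) (NoC_q 1) * Real.cos t
      rw [h1, NoC_q, map_zero, zero_mul]
  | succ l ih =>
    refine ⟨ih.2, ?_⟩
    rw [show l + 1 + 1 = l + 2 from rfl, jl_rec, ih.1, ih.2, NoC_q, map_sub, map_mul, map_mul,
      Polynomial.aeval_C, Polynomial.aeval_X]
    simp only [map_add, map_mul, map_ofNat, map_natCast]
    ring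

theorem no_common {t : ℝ} (ht : 0 < t) (h1 : jl 1 t = 0) {l : ℕ} (hl : l ≠ 1) : jl l t ≠ 0 := by
  intro h
  have hs := NoC_sin ht h1
  have hcs := Real.sin_sq_add_cos_sq t
  have hc : Real.cos t ≠ 0 := by
    intro hc
    rw [hs, hc] at hcs
    norm_num at hcs
  have hroot : Polynomial.aeval (1 / t) (NoC_q l) = 0 := by
    rw [(NoC_eval ht h1 l).1] at h
    exact (mul_eq_zero.1 h).resolve_right hc
  -- `t` is algebraic
  have ha1 : IsAlgebraic ℤ (1 / t) := ⟨NoC_q l, NoC_ne hl, hroot⟩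
  have ha2 : IsAlgebraic ℚ (1 / t) := (IsFractionRing.isAlgebraic_iff ℤ ℚ ℝ).1 ha1
  have ha3 : IsAlgebraic ℚ t := by
    have h2 := ha2.inv
    rwa [one_div, inv_inv] at h2
  have ha4 : IsAlgebraic ℚ (t : ℂ) := ha3.algebraMap (A := ℂ)
  have hI : IsAlgebraic ℚ Complex.I := Complex.isIntegral_rat_I.isAlgebraic
  have hIt : IsAlgebraic ℚ (Complex.I * (t : ℂ)) := hI.mul ha4
  have h1a : IsAlgebraic ℚ (1 : ℂ) := isAlgebraic_one
  have h2a : IsAlgebraic ℚ (2 : ℂ) := by
    have h2 := h1a.add h1a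
    rwa [one_add_one_eq_two] at h2
  have hα : IsAlgebraic ℚ (2 * (Complex.I * (t : ℂ))) := h2a.mul hIt
  have hα0 : 2 * (Complex.I * (t : ℂ)) ≠ 0 :=
    mul_ne_zero two_ne_zero (mul_ne_zero Complex.I_ne_zero (Complex.ofReal_ne_zero.2 ht.ne'))
  refine hermite_lindemann hα hα0 ?_
  have hd : (1 : ℂ) - Complex.I * (t : ℂ) ≠ 0 := by
    intro h2
    have h3 := congrArg Complex.re h2
    simp at h3
  have hexp : Complex.exp (2 * (Complex.I * (t : ℂ))) * (1 - Complex.I * (t : ℂ)) =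
      1 + Complex.I * (t : ℂ) := by
    have h2 : Complex.exp (2 * (Complex.I * (t : ℂ))) =
        ((Real.cos t : ℂ) + (Real.sin t : ℂ) * Complex.I) ^ 2 := by
      rw [Complex.ofReal_cos, Complex.ofReal_sin, ← Complex.exp_mul_I, ← Complex.exp_nat_mul]
      congr 1
      push_cast
      ring
    have h3 : ((Real.cos t : ℝ) : ℂ) ^ 2 * (1 + (t : ℂ) ^ 2) = 1 := by
      rw [hs] at hcs
      have h4 : Real.cos t ^ 2 * (1 + t ^ 2) = 1 := by linarith
      exact_mod_cast h4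
    rw [h2, hs]
    push_cast
    have hI2 : Complex.I ^ 2 = -1 := Complex.I_sq
    rw [Complex.ofReal_cos] at h3
    linear_combination ((1 + Complex.I * (t : ℂ)) * h3) +
      (Complex.cos t) ^ 2 * ((t : ℂ) ^ 2 * (-1 - Complex.I * (t : ℂ))) * hI2
  have hβ : Complex.exp (2 * (Complex.I * (t : ℂ))) =
      (1 + Complex.I * (t : ℂ)) * (1 - Complex.I * (t : ℂ))⁻¹ := by
    rw [← hexp, mul_assoc, mul_inv_cancel₀ hd, mul_one]
  rw [hβ]
  exact (h1a.add hIt).mul (h1a.sub hIt).inv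

end Pool.Agent.H68.SI
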