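import Pool.Agent.H68.SI.Mo3
import Pool.Agent.H68.SI.NoC
import Pool.Agent.H68.SC.Fin

/-!
# Balls are isolated (proved from the modules)
-/

set_option autoImplicit false

namespace Pool.Agent.H68.SI

open Filter Topology MeasureTheory Metric
open scoped ContDiff
open Pool.Agent.H68.SC

/-- a window around `T` free of other zeros -/
theorem gap_one (l : ℕ) {T : ℝ} : ∃ η : ℝ, 0 < η ∧ ∀ t, 0 < t → T - η ≤ t → t ≤ T + η →
    jl l t = 0 → t = T := by
  obtain hf := Zc_finite l (T + 1)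
  by_contra hc
  push Not at hc
  have hinf : (Zc l (T + 1)).Infinite := by
    intro hfin
    -- distances to `T` of the other zeros have a positive minimum
    have h1 : ∃ η : ℝ, 0 < η ∧ η ≤ 1 ∧ ∀ t ∈ Zc l (T + 1), t ≠ T → η < |t - T| := by
      have h2 : ∀ F : Finset ℝ, ∃ η : ℝ, 0 < η ∧ η ≤ 1 ∧ ∀ t ∈ F, t ≠ T → η < |t - T| := by
        intro F
        induction F using Finset.induction_on with
        | empty => exact ⟨1, one_pos, le_rfl, by simp⟩
        | insert a F ha ih =>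
          obtain ⟨η, h3, h4, h5⟩ := ih
          by_cases haT : a = T
          · refine ⟨η, h3, h4, ?_⟩
            intro t ht hne
            rcases Finset.mem_insert.1 ht with rfl | ht
            · exact absurd haT hne
            · exact h5 t ht hne
          · have h6 : 0 < |a - T| := abs_pos.2 (sub_ne_zero.2 haT)
            refine ⟨min η (|a - T| / 2), lt_min h3 (half_pos h6), (min_le_left _ _).trans h4, ?_⟩
            intro t ht hne
            rcases Finset.mem_insert.1 ht with rfl | ht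
            · exact (min_le_right _ _).trans_lt (half_lt_self h6)
            · exact (min_le_left _ _).trans_lt (h5 t ht hne)
      obtain ⟨η, h3, h4, h5⟩ := h2 hfin.toFinset
      exact ⟨η, h3, h4, fun t ht => h5 t (hfin.mem_toFinset.2 ht)⟩
    obtain ⟨η, h3, h4, h5⟩ := h1
    obtain ⟨t, h6, h7, h8, h9, h10⟩ := hc η h3
    have := h5 t ⟨h6, h8.trans (by linarith), h9⟩ h10
    rw [lt_abs] at this
    rcases this with h | h <;> linarith
  exact hinf hf

theorem gap_all {T : ℝ} (hT : 0 < T) (h1 : jl 1 T = 0) :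
    ∃ η : ℝ, 0 < η ∧ (∀ l, l ≠ 1 → ∀ t, 0 < t → T - η ≤ t → t ≤ T + η → jl l t ≠ 0) ∧
      ∀ t, 0 < t → T - η ≤ t → t ≤ T + η → jl 1 t = 0 → t = T := by
  obtain ⟨L, hL⟩ := exists_nat_gt (T + 1)
  have h2 : ∀ n : ℕ, ∃ η : ℝ, 0 < η ∧ η ≤ 1 ∧
      ∀ l < n, ∀ t, 0 < t → T - η ≤ t → t ≤ T + η → jl l t = 0 → t = T := by
    intro n
    induction n with
    | zero => exact ⟨1, one_pos, le_rfl, by simp⟩
    | succ n ih =>
      obtain ⟨η, h3, h4, h5⟩ := ih
      obtain ⟨η', h6, h7⟩ := gap_one n (T := T)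
      refine ⟨min η η', lt_min h3 h6, (min_le_left _ _).trans h4, ?_⟩
      intro l hl t ht h8 h9 h10
      rcases Nat.lt_succ_iff_lt_or_eq.1 hl with hl | rfl
      · exact h5 l hl t ht (by linarith [min_le_left η η']) (by linarith [min_le_left η η']) h10
      · exact h7 t ht (by linarith [min_le_right η η']) (by linarith [min_le_right η η']) h10
  obtain ⟨η, h3, h4, h5⟩ := h2 (L + 2)
  refine ⟨η, h3, ?_, ?_⟩
  · intro l hl t ht h6 h7 h8
    by_cases hlL : l < L + 2
    · have := h5 l hlL t ht h6 h7 h8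
      rw [this] at h8
      exact no_common hT h1 hl h8
    · refine (jl_pos_sq l ht ?_).ne' h8
      have h9 : (L : ℝ) ≤ l := by exact_mod_cast (by omega : L ≤ l)
      nlinarith
  · intro t ht h6 h7 h8
    exact h5 1 (by omega) t ht h6 h7 h8

theorem isolated {k ρ : ℝ} (hk : 0 < k) (hρ : 0 < ρ) : ∃ δ : ℝ, 0 < δ ∧
    ∀ (D : Set E) (φ : E → ℝ) (c : ℝ) (u : E → ℝ) (x₀ : E), Sol D φ k c u →
      ball x₀ (ρ - δ) ⊆ D → D ⊆ ball x₀ (ρ + δ) → ∃ (z : E) (r : ℝ), D = ball z r := by
  by_cases h1 : jl 1 (k * ρ) = 0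
  · obtain ⟨η, h2, h3, h4⟩ := gap_all (mul_pos hk hρ) h1
    refine ⟨η / k, div_pos h2 hk, ?_⟩
    intro D φ c u x₀ h h5 h6
    have h7 : k * (ρ - η / k) = k * ρ - η := by field_simp
    have h8 : k * (ρ + η / k) = k * ρ + η := by field_simp
    refine finA h h5 h6 ?_ ?_
    · intro l hl t ht h9 h10
      rw [h7] at h9
      rw [h8] at h10
      exact h3 l (by omega) t ht h9 h10
    · intro l hl t t' ht h9 h10 ht' h9' h10' h11 h12
      rw [h7] at h9 h9'
      rw [h8] at h10 h10'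
      by_cases hl1 : l = 1
      · subst hl1
        rw [h4 t ht h9 h10 h11, h4 t' ht' h9' h10' h12]
      · exact absurd h11 (h3 l hl1 t ht h9 h10)
  · obtain ⟨δ, h2, h3⟩ := near_ball hk hρ h1
    refine ⟨δ, h2, ?_⟩
    intro D φ c u x₀ h h5 h6
    exact (h3 _ c _ (ext_UU (trans_sol h x₀)) (sub_in h5) (sub_out h6)).elim

end Pool.Agent.H68.SI
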