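import Pool.Agent.H68.SC.NegU

/-!
# Module Mo1 (about 120 lines): the equation for `U` on the whole space, weakly

PROOF. As `int_U` in H68/SC/NegU.lean (the case `ζ = 1`; copy and adapt that proof). Let `χ` be the
cutoff of `cut` (module Cut) for the eigenfunctions `pd U j = ww U (ee j, 0)` (`ww_eigf`), a compact
`K₀ ⊆ D` and `ε`. For each `i`, `ibp` with `f = pd U i` and `g = χ ζ` (`C¹`, compact support in `D`):
`∫ pd U i * pd (χ ζ) i = - ∫ pd (pd U i) i * χ ζ`; sum over `i`, `helm`:
`∫ χ gg U ζ + ∫ ζ gg U χ = k² ∫ (U + c) χ ζ`. `ζ` and its derivatives are bounded on the bounded set `D`;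
`|∫ ζ gg U χ| ≤ sup |ζ| √(vol D) √(∫ gg U U gg χ χ) → 0`; the other two integrands differ from those
with `χ = 1` on `D` only on `D \ K₀`, of small measure (`gg U ζ = 0` outside `D`).
-/

set_option autoImplicit false

namespace Pool.Agent.H68.SI

open Filter Topology MeasureTheory Metric
open scoped ContDiff
open Pool.Agent.H68.SC

private theorem Mo1_pdC1 {D : Set E} {k c : ℝ} {U : E → ℝ} (h : UU D k c U) (i : Fin 3) :
    ContDiffOn ℝ 1 (pd U i) D :=
  (h.C2.fderiv_of_isOpen h.opn (by norm_num)).clm_apply contDiffOn_const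

private theorem Mo1_int {D : Set E} {A B : E → ℝ} (hD : IsOpen D) (hA : ContinuousOn A D)
    (hB : B ∈ C1c D) : Integrable (fun x => A x * B x) := by
  refine integrable_cc ?_ (HasCompactSupport.mul_left (C1c.compact hB))
  rw [continuous_iff_continuousAt]
  intro x
  by_cases hx : x ∈ tsupport B
  · exact (hA.continuousAt (hD.mem_nhds (C1c.sub hB hx))).mul (C1c.cont hB).continuousAt
  · have h0 : (fun y => A y * B y) =ᶠ[𝓝 x] fun _ => 0 := by
      have : (tsupport B)ᶜ ∈ 𝓝 x := (isClosed_tsupport B).isOpen_compl.mem_nhds hx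
      filter_upwards [this] with y hy
      rw [image_eq_zero_of_notMem_tsupport hy, mul_zero]
    rw [continuousAt_congr h0]
    exact continuousAt_const

private theorem Mo1_out {D : Set E} {χ : E → ℝ} (hχ : χ ∈ C1c D) {x : E} (hx : x ∉ D) :
    χ x = 0 :=
  image_eq_zero_of_notMem_tsupport fun hc => hx (C1c.sub hχ hc)

private theorem Mo1_id {D : Set E} {k c : ℝ} {U : E → ℝ} (h : UU D k c U) {χ : E → ℝ}
    (hχ : χ ∈ C1c D) : ∫ x, gg U χ x = k ^ 2 * ∫ x, (U x + c) * χ x := by
  have h1 : ∀ i, ∫ x, pd U i x * pd χ i x = -∫ x, pd (pd U i) i x * χ x := fun i =>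
    ibp h.opn (Mo1_pdC1 h i) (C1c.contDiff hχ) (C1c.compact hχ) (C1c.sub hχ) i
  have h2 : ∀ i, Integrable (fun x => pd U i x * pd χ i x) := fun i =>
    integrable_cc ((continuous_pd h.C1 i).mul (continuous_pd (C1c.contDiff hχ) i))
      (HasCompactSupport.mul_left (hasCompactSupport_pd (C1c.compact hχ) i))
  have h3 : ∀ i, Integrable (fun x => pd (pd U i) i x * χ x) := fun i =>
    Mo1_int h.opn (((Mo1_pdC1 h i).continuousOn_fderiv_of_isOpen h.opn le_rfl).clm_apply
      continuousOn_const) hχ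
  calc ∫ x, gg U χ x = ∑ i, ∫ x, pd U i x * pd χ i x := by
        unfold gg
        exact integral_finsetSum _ fun i _ => h2 i
    _ = -∫ x, ∑ i, pd (pd U i) i x * χ x := by
        rw [integral_finsetSum _ fun i _ => h3 i, ← Finset.sum_neg_distrib]
        exact Finset.sum_congr rfl fun i _ => h1 i
    _ = k ^ 2 * ∫ x, (U x + c) * χ x := by
        rw [← integral_neg, ← integral_const_mul]
        refine integral_congr_ae (Eventually.of_forall fun x => ?_)
        simp only
        by_cases hx : x ∈ D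
        · have := h.helm x hx
          rw [← Finset.sum_mul]
          have e : ∑ i, pd (pd U i) i x = -(k ^ 2 * (U x + c)) := by linarith
          rw [e]
          ring
        · rw [Mo1_out hχ hx]
          simp

private theorem Mo1_vol {D : Set E} {k c : ℝ} {U : E → ℝ} (h : UU D k c U) : volume D < ⊤ :=
  h.bdd.measure_lt_top

private theorem Mo1_cs {D : Set E} {k c : ℝ} {U : E → ℝ} (h : UU D k c U) :
    HasCompactSupport U := by
  refine HasCompactSupport.intro h.bdd.isCompact_closure fun x hx => ?_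
  exact (h.out x fun hd => hx (subset_closure hd)).1

private theorem Mo1_ww (U : E → ℝ) (j : Fin 3) : pd U j = ww U (ee j, 0) := by
  funext x
  unfold pd ww kf
  congr 1
  ext i
  fin_cases i
  · simp [crs_apply0]
  · simp [crs_apply1]
  · simp [crs_apply2]

/-- replacing `1` by the cutoff -/
private theorem Mo1_near {D : Set E} {k c : ℝ} {U : E → ℝ} (h : UU D k c U) {F χ : E → ℝ}
    (hF : Continuous F) {B l : ℝ} (hl : 0 < l) (hB0 : 0 ≤ B) (hB : ∀ x ∈ D, |F x| ≤ B)
    (hχ : χ ∈ C1c D) (c1 : ∀ x, 0 ≤ χ x ∧ χ x ≤ 1) {K₀ : Set E} (hK2 : IsCompact K₀)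
    (c2 : ∀ x ∈ K₀, χ x = 1) (hK3 : volume (D \ K₀) < ENNReal.ofReal l) :
    |(∫ x in D, F x) - ∫ x, F x * χ x| ≤ B * l := by
  have hDm : MeasurableSet D := h.opn.measurableSet
  have hFi : IntegrableOn F D := by
    refine IntegrableOn.of_bound (Mo1_vol h) hF.aestronglyMeasurable.restrict B ?_
    exact (ae_restrict_iff' hDm).2 (Eventually.of_forall fun x hx => hB x hx)
  have a3 : ∫ x, F x * χ x = ∫ x in D, F x * χ x :=
    (setIntegral_eq_integral_of_forall_compl_eq_zero fun x hx => by
      rw [Mo1_out hχ hx, mul_zero]).symm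
  have hχi : Integrable (fun x => F x * χ x) := Mo1_int h.opn hF.continuousOn hχ
  rw [a3, ← integral_sub hFi hχi.integrableOn]
  have hDK : MeasurableSet (D \ K₀) := hDm.diff hK2.measurableSet
  calc |∫ x in D, (F x - F x * χ x)| ≤ ∫ x in D, |F x - F x * χ x| :=
        abs_integral_le_integral_abs
    _ ≤ ∫ x in D, (D \ K₀).indicator (fun _ => B) x := by
        apply setIntegral_mono_on
        · exact (hFi.sub hχi.integrableOn).abs
        · exact ((integrable_indicator_iff hDK).2 (integrableOn_const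
            ((measure_mono Set.sdiff_subset).trans_lt (Mo1_vol h)).ne)).integrableOn
        · exact hDm
        · intro x hx
          by_cases hxK : x ∈ K₀
          · rw [c2 x hxK, Set.indicator_of_notMem (fun hc => hc.2 hxK)]
            simp
          · rw [Set.indicator_of_mem (show x ∈ D \ K₀ from ⟨hx, hxK⟩)]
            have e1 : F x - F x * χ x = F x * (1 - χ x) := by ring
            rw [e1, abs_mul]
            have e2 : |1 - χ x| ≤ 1 := by
              rw [abs_le]
              constructor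
              · linarith [(c1 x).2]
              · linarith [(c1 x).1]
            calc |F x| * |1 - χ x| ≤ B * 1 :=
                  mul_le_mul (hB x hx) e2 (abs_nonneg _) hB0
              _ = B := mul_one _
    _ = B * volume.real (D \ K₀) := by
        rw [setIntegral_indicator hDK, Set.inter_eq_right.2 Set.sdiff_subset]
        simp only [integral_const, smul_eq_mul, measureReal_restrict_apply_univ]
        ring
    _ ≤ B * l := by
        apply mul_le_mul_of_nonneg_left _ hB0
        rw [measureReal_def]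
        exact ENNReal.toReal_le_of_le_ofReal hl.le hK3.le

/-- the boundary term is small -/
private theorem Mo1_cross {D : Set E} {k c : ℝ} {U : E → ℝ} (h : UU D k c U) {ζ χ : E → ℝ}
    (hζ : Continuous ζ) {S l : ℝ} (hl : 0 < l) (hS0 : 0 ≤ S) (hS : ∀ x ∈ D, |ζ x| ≤ S)
    (hχ : χ ∈ C1c D) (c3 : ∫ x, gg U U x * gg χ χ x ≤ l ^ 2) :
    |∫ x, ζ x * gg U χ x| ≤ S * (l * (volume.real D + 1) / 2) := by
  have hDm : MeasurableSet D := h.opn.measurableSet
  set V : ℝ := volume.real D with hV
  have hggc : Continuous (gg U χ) := continuous_gg h.C1 (C1c.contDiff hχ)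
  have hggs : HasCompactSupport (gg U χ) := by
    have : gg U χ = gg χ U := by funext x; exact gg_comm _ _ _
    rw [this]
    exact hasCompactSupport_gg (C1c.compact hχ) U
  have hgout : ∀ x, x ∉ D → gg U χ x = 0 := by
    intro x hx
    unfold gg
    refine Finset.sum_eq_zero fun i _ => ?_
    rw [pd_zero_of (fun hc => hx (C1c.sub hχ hc)) i, mul_zero]
  have b1 : Integrable (fun x => gg U U x * gg χ χ x) :=
    integrable_cc ((continuous_gg h.C1 h.C1).mul
      (continuous_gg (C1c.contDiff hχ) (C1c.contDiff hχ)))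
      (HasCompactSupport.mul_left (hasCompactSupport_gg (C1c.compact hχ) χ))
  have b2 : ∫ x, ζ x * gg U χ x = ∫ x in D, ζ x * gg U χ x :=
    (setIntegral_eq_integral_of_forall_compl_eq_zero fun x hx => by
      rw [hgout x hx, mul_zero]).symm
  rw [b2]
  have b3 : |∫ x in D, ζ x * gg U χ x| ≤ ∫ x in D, |ζ x * gg U χ x| :=
    abs_integral_le_integral_abs
  have hgi : Integrable (gg U χ) := integrable_cc hggc hggs
  have b0 : ∫ x in D, |ζ x * gg U χ x| ≤ ∫ x in D, S * |gg U χ x| := by
    apply setIntegral_mono_on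
    · exact (integrable_cc (hζ.mul hggc) (HasCompactSupport.mul_left hggs)).integrableOn.abs
    · exact hgi.integrableOn.abs.const_mul S
    · exact hDm
    · intro x hx
      rw [abs_mul]
      exact mul_le_mul_of_nonneg_right (hS x hx) (abs_nonneg _)
  rw [integral_const_mul] at b0
  have b4 : ∫ x in D, |gg U χ x| ≤ ∫ x in D, (l / 2 + (1 / (2 * l)) * (gg U U x * gg χ χ x)) := by
    apply integral_mono
    · exact hgi.integrableOn.abs
    · exact (integrableOn_const (Mo1_vol h).ne).add (b1.const_mul _).integrableOn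
    · intro x
      simp only
      have d1 := gg_sq_le U χ x
      have d2 : |gg U χ x| ^ 2 ≤ gg U U x * gg χ χ x := by rw [sq_abs]; exact d1
      have d4 : 1 / (2 * l) * (gg U U x * gg χ χ x) ≥ 1 / (2 * l) * |gg U χ x| ^ 2 :=
        mul_le_mul_of_nonneg_left d2 (by positivity)
      have d5 : |gg U χ x| ≤ l / 2 + 1 / (2 * l) * |gg U χ x| ^ 2 := by
        have : l / 2 + 1 / (2 * l) * |gg U χ x| ^ 2 - |gg U χ x| =
            (|gg U χ x| - l) ^ 2 / (2 * l) := by
          field_simp
          ring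
        have d6 : 0 ≤ (|gg U χ x| - l) ^ 2 / (2 * l) := by positivity
        linarith
      linarith
  have b5 : ∫ x in D, (l / 2 + (1 / (2 * l)) * (gg U U x * gg χ χ x)) ≤
      l / 2 * V + 1 / (2 * l) * l ^ 2 := by
    have b7 : IntegrableOn (fun _ : E => l / 2) D := integrableOn_const (Mo1_vol h).ne
    rw [integral_add b7 (b1.const_mul _).integrableOn, integral_const_mul]
    apply add_le_add
    · simp only [integral_const, smul_eq_mul, measureReal_restrict_apply_univ]
      rw [← hV]
      linarith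
    · apply mul_le_mul_of_nonneg_left _ (by positivity)
      refine (setIntegral_le_integral b1 (Eventually.of_forall fun x =>
        mul_nonneg (gg_nonneg _ _) (gg_nonneg _ _))).trans c3
  have b6 : l / 2 * V + 1 / (2 * l) * l ^ 2 = l * (V + 1) / 2 := by
    field_simp
  have b8 : ∫ x in D, |gg U χ x| ≤ l * (V + 1) / 2 := by linarith
  exact b3.trans (b0.trans (mul_le_mul_of_nonneg_left b8 hS0))

private theorem Mo1_mul {D : Set E} {ζ χ : E → ℝ} (hζ : ContDiff ℝ 1 ζ) (hχ : χ ∈ C1c D) :
    (fun x => χ x * ζ x) ∈ C1c D := by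
  refine ⟨(C1c.contDiff hχ).mul hζ, HasCompactSupport.mul_right (C1c.compact hχ), ?_⟩
  exact (tsupport_mul_subset_left).trans (C1c.sub hχ)

theorem weak_global {D : Set E} {k c : ℝ} {U : E → ℝ} (h : UU D k c U) {ζ : E → ℝ}
    (hζ : ContDiff ℝ 1 ζ) : ∫ x, gg U ζ x = k ^ 2 * ∫ x in D, (U x + c) * ζ x := by
  have hDm : MeasurableSet D := h.opn.measurableSet
  have hcl : IsCompact (closure D) := h.bdd.isCompact_closure
  have hgc : Continuous (gg U ζ) := continuous_gg h.C1 hζ
  have hUc : Continuous U := h.C1.continuous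
  have bnd : ∀ F : E → ℝ, Continuous F → ∃ B : ℝ, 0 ≤ B ∧ ∀ x ∈ D, |F x| ≤ B := by
    intro F hF
    obtain ⟨B, hB⟩ := hcl.exists_bound_of_continuousOn hF.continuousOn
    exact ⟨max B 0, le_max_right _ _, fun x hx =>
      (hB x (subset_closure hx)).trans (le_max_left _ _)⟩
  obtain ⟨S, hS0, hS⟩ := bnd ζ hζ.continuous
  obtain ⟨W, hW0, hW⟩ := bnd (gg U ζ) hgc
  obtain ⟨B, hB0, hB⟩ := bnd (fun x => (U x + c) * ζ x)
    ((hUc.add continuous_const).mul hζ.continuous)
  set V : ℝ := volume.real D with hV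
  have hV0 : 0 ≤ V := measureReal_nonneg
  have hk2 : 0 < k ^ 2 := pow_pos h.kpos 2
  have hL : ∫ x, gg U ζ x = ∫ x in D, gg U ζ x := by
    refine (setIntegral_eq_integral_of_forall_compl_eq_zero fun x hx => ?_).symm
    unfold gg
    refine Finset.sum_eq_zero fun i _ => ?_
    have : pd U i x = 0 := by
      unfold pd
      rw [(h.out x hx).2]
      rfl
    rw [this, zero_mul]
  have key : ∀ l : ℝ, 0 < l → |(∫ x, gg U ζ x) - k ^ 2 * ∫ x in D, (U x + c) * ζ x| ≤
      l * (W + S * ((V + 1) / 2) + k ^ 2 * B) := by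
    intro l hl
    obtain ⟨K₀, hK1, hK2, hK3⟩ := hDm.exists_isCompact_sdiff_lt (Mo1_vol h).ne
      (ENNReal.ofReal_pos.2 hl).ne'
    obtain ⟨χ, hχ, c1, c2, c3, -⟩ := cut h.opn h.bdd (K := k ^ 2) hk2
      (fun j : Fin 3 => pd U j) (fun j => by rw [Mo1_ww]; exact ww_eigf h _) hK2 hK1
      (ε := l ^ 2) (by positivity)
    have hGe : ∀ x, ∑ j : Fin 3, pd U j x ^ 2 = gg U U x := fun x => by
      unfold gg
      exact Finset.sum_congr rfl fun i _ => sq _
    simp only [hGe] at c3
    have c2' : ∀ x ∈ K₀, χ x = 1 := fun x hx => (c2 x hx).self_of_nhds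
    have a1 := Mo1_near h hgc hl hW0 hW hχ c1 hK2 c2' hK3
    have a2 := Mo1_near h ((hUc.add continuous_const).mul hζ.continuous) hl hB0 hB hχ c1 hK2
      c2' hK3
    have a3 := Mo1_cross h hζ.continuous hl hS0 hS hχ c3
    have a4 := Mo1_id h (Mo1_mul hζ hχ)
    have e1 : ∀ x, gg U (fun x => χ x * ζ x) x = gg U ζ x * χ x + ζ x * gg U χ x := by
      intro x
      unfold gg
      rw [Finset.sum_mul, Finset.mul_sum, ← Finset.sum_add_distrib]
      refine Finset.sum_congr rfl fun i _ => ?_
      rw [pd_mul (C1c.diff hχ x) (hζ.differentiable one_ne_zero x)]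
      ring
    have i1 : Integrable (fun x => gg U ζ x * χ x) := Mo1_int h.opn hgc.continuousOn hχ
    have i2 : Integrable (fun x => ζ x * gg U χ x) := by
      refine integrable_cc (hζ.continuous.mul (continuous_gg h.C1 (C1c.contDiff hχ)))
        (HasCompactSupport.mul_left ?_)
      have : gg U χ = gg χ U := by funext x; exact gg_comm _ _ _
      rw [this]
      exact hasCompactSupport_gg (C1c.compact hχ) U
    have e2 : ∫ x, gg U (fun x => χ x * ζ x) x =
        (∫ x, gg U ζ x * χ x) + ∫ x, ζ x * gg U χ x := by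
      rw [← integral_add i1 i2]
      exact integral_congr_ae (Eventually.of_forall e1)
    have e3 : ∫ x, (U x + c) * (χ x * ζ x) = ∫ x, (U x + c) * ζ x * χ x :=
      integral_congr_ae (Eventually.of_forall fun x => by simp only; ring)
    rw [e2, e3] at a4
    rw [hL]
    set I1 := ∫ x in D, gg U ζ x
    set I2 := ∫ x, gg U ζ x * χ x
    set J1 := ∫ x in D, (U x + c) * ζ x
    set J2 := ∫ x, (U x + c) * ζ x * χ x
    set X := ∫ x, ζ x * gg U χ x
    have e4 : I1 - k ^ 2 * J1 = (I1 - I2) - X - k ^ 2 * (J1 - J2) := by linarith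
    rw [e4]
    have t1 : |(I1 - I2) - X - k ^ 2 * (J1 - J2)| ≤ |I1 - I2| + |X| + |k ^ 2 * (J1 - J2)| :=
      (abs_sub _ _).trans (add_le_add (abs_sub _ _) le_rfl)
    have t2 : |k ^ 2 * (J1 - J2)| ≤ k ^ 2 * (B * l) := by
      rw [abs_mul, abs_of_pos hk2]
      exact mul_le_mul_of_nonneg_left a2 hk2.le
    have t3 : l * (W + S * ((V + 1) / 2) + k ^ 2 * B) =
        W * l + S * (l * (V + 1) / 2) + k ^ 2 * (B * l) := by ring
    rw [t3]
    linarith
  by_contra hne
  have hpos : 0 < |(∫ x, gg U ζ x) - k ^ 2 * ∫ x in D, (U x + c) * ζ x| :=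
    abs_pos.2 (sub_ne_zero.2 hne)
  set Q := W + S * ((V + 1) / 2) + k ^ 2 * B with hQ
  have hQ0 : 0 ≤ Q := by positivity
  set P := |(∫ x, gg U ζ x) - k ^ 2 * ∫ x in D, (U x + c) * ζ x|
  have h9 := key (P / (2 * (Q + 1))) (by positivity)
  have h10 : P / (2 * (Q + 1)) * Q ≤ P / 2 := by
    have : P / (2 * (Q + 1)) * Q = P / 2 * (Q / (Q + 1)) := by
      field_simp
    rw [this]
    have h11 : Q / (Q + 1) ≤ 1 := by
      rw [div_le_one (by linarith)]
      linarith
    nlinarith
  linarith

end Pool.Agent.H68.SI
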