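import Pool.Agent.H68.SC.Polar
import Pool.Agent.H68.SC.Mom
import Pool.Agent.H68.SC.JPos

/-!
# Module Mo2 (about 170 lines): the radial solution

`z0 k x = sin (k ‖x‖) / (k ‖x‖)` (`= 1` at `x = 0`).

PROOF. `z0_C1`: `z0 k x = Real.sinc (k ‖x‖)` (Mathlib has `Real.sinc`, continuous); away from `0` it is
smooth with `fderiv (z0 k) x v = k djl 0 (k ‖x‖) ⟪x, v⟫ / ‖x‖`, and `|djl 0 t| = |jl 1 t| ≤ t` for
`0 < t ≤ 1` (`|sin t - t cos t| ≤ t³`), so the derivative tends to `0` at `0`;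
`hasFDerivAt_of_tendsto...` or a direct estimate `|z0 k x - 1| ≤ k² ‖x‖²`: derivative `0` at `0`. So `C¹`
(`contDiff_one_iff_fderiv`).
`z0_weak`: let `f` be `C¹`, `f = 0` for `‖x‖ ≥ R`. By `polarR`, `∫ gg f (z0 k) = ∫ r in 0..R, r² ∫ y, gg f (z0 k) (r • y)`,
and for `r > 0`, `‖y‖ = 1`: `gg f (z0 k) (r • y) = k djl 0 (k r) * fderiv ℝ f (r • y) y` (the gradient of
`z0 k` at `r • y` is `k djl 0 (k r) y`; `fderiv_sum`). With `m r = ∫ y, f (r • y) ∂sg`, `m' r = ∫ y, fderiv ℝ f (r • y) y ∂sg`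
(differentiation under the integral as in module Mom): `∫ gg f (z0 k) = ∫ r in 0..R, r² k djl 0 (k r) m' r`.
`r² k djl 0 (k r)` has derivative `- k² r² jl 0 (k r)` (`jl_ode`, `l = 0`), it tends to `0` at `0`
(`djl_bound`), `m R = 0`: integration by parts gives `∫ r in 0..R, k² r² jl 0 (k r) m r = k² ∫ z0 k f`.
-/

set_option autoImplicit false

namespace Pool.Agent.H68.SI

open Filter Topology MeasureTheory Metric
open scoped ContDiff
open Pool.Agent.H68.SC

/-- the radial solution `sin (k |x|) / (k |x|)` -/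
noncomputable def z0 (k : ℝ) (x : E) : ℝ := Real.sinc (k * ‖x‖)

/-- the coefficients of `sin (√s) / √s` -/
noncomputable def gc (n : ℕ) : ℝ := (-1) ^ n / ((2 * n + 1).factorial : ℝ)

/-- `sin (√s) / √s` as a power series -/
noncomputable def GG : ℝ → ℝ := FormalMultilinearSeries.ofScalarsSum gc

theorem gc_ne (n : ℕ) : gc n ≠ 0 := by
  unfold gc
  have : ((2 * n + 1).factorial : ℝ) ≠ 0 := by exact_mod_cast Nat.factorial_ne_zero _
  exact div_ne_zero (pow_ne_zero _ (by norm_num)) this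

theorem gc_ratio (n : ℕ) : ‖gc n.succ‖ / ‖gc n‖ ≤ 1 / ((n : ℝ) + 1) := by
  have h1 : ∀ n : ℕ, ‖gc n‖ = 1 / ((2 * n + 1).factorial : ℝ) := by
    intro n
    unfold gc
    rw [norm_div, norm_pow, norm_neg, norm_one, one_pow, Real.norm_natCast]
  rw [h1, h1]
  have h2 : (2 * n.succ + 1).factorial = (2 * n + 3) * ((2 * n + 2) * (2 * n + 1).factorial) := by
    rw [show 2 * n.succ + 1 = (2 * n + 1) + 1 + 1 by rw [Nat.succ_eq_add_one]; ring,
      Nat.factorial_succ, Nat.factorial_succ]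
  rw [h2]
  have h3 : (0 : ℝ) < ((2 * n + 1).factorial : ℝ) := by exact_mod_cast Nat.factorial_pos _
  push_cast
  have hn : (0 : ℝ) ≤ n := Nat.cast_nonneg n
  have h5 : 1 / ((2 * (n : ℝ) + 3) * ((2 * (n : ℝ) + 2) * ((2 * n + 1).factorial : ℝ))) /
      (1 / ((2 * n + 1).factorial : ℝ)) = 1 / ((2 * (n : ℝ) + 3) * (2 * (n : ℝ) + 2)) := by
    field_simp
  rw [h5]
  exact one_div_le_one_div_of_le (by positivity) (by nlinarith)

theorem GG_analytic (x : ℝ) : AnalyticAt ℝ GG x := by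
  have hr : (FormalMultilinearSeries.ofScalars ℝ gc).radius = ⊤ := by
    refine FormalMultilinearSeries.ofScalars_radius_eq_top_of_tendsto ℝ gc
      (Eventually.of_forall gc_ne) ?_
    exact squeeze_zero (fun n => by positivity) gc_ratio tendsto_one_div_add_atTop_nhds_zero_nat
  have h := (FormalMultilinearSeries.ofScalars ℝ gc).hasFPowerSeriesOnBall (by rw [hr]; simp)
  refine h.analyticOnNhd x ?_
  rw [hr]
  simp

theorem GG_contDiff : ContDiff ℝ 1 GG :=
  contDiff_iff_contDiffAt.2 fun x => (GG_analytic x).contDiffAt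

theorem sinc_eq_GG (t : ℝ) : Real.sinc t = GG (t ^ 2) := by
  unfold GG
  rw [FormalMultilinearSeries.ofScalars_sum_eq]
  by_cases ht : t = 0
  · subst ht
    rw [Real.sinc_zero, tsum_eq_single 0]
    · simp [gc]
    · intro n hn
      simp [hn]
  · rw [Real.sinc_of_ne_zero ht]
    have h := (Real.hasSum_sin t).div_const t
    rw [← h.tsum_eq]
    refine tsum_congr fun n => ?_
    unfold gc
    rw [smul_eq_mul, ← pow_mul, pow_succ]
    field_simp

theorem z0_eq (k : ℝ) (x : E) : z0 k x = GG (k ^ 2 * ‖x‖ ^ 2) := by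
  unfold z0
  rw [sinc_eq_GG, mul_pow]

theorem z0_hasFDerivAt (k : ℝ) (x : E) :
    HasFDerivAt (z0 k) (deriv GG (k ^ 2 * ‖x‖ ^ 2) • (k ^ 2 • (2 • innerSL ℝ x))) x := by
  have h1 : HasFDerivAt (fun x : E => k ^ 2 * ‖x‖ ^ 2) (k ^ 2 • (2 • innerSL ℝ x)) x :=
    ((hasStrictFDerivAt_norm_sq x).hasFDerivAt).const_mul (k ^ 2)
  have h2 : HasDerivAt GG (deriv GG (k ^ 2 * ‖x‖ ^ 2)) (k ^ 2 * ‖x‖ ^ 2) :=
    (GG_analytic _).differentiableAt.hasDerivAt
  have h3 := h2.comp_hasFDerivAt x h1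
  have h4 : z0 k = GG ∘ fun x : E => k ^ 2 * ‖x‖ ^ 2 := funext fun x => z0_eq k x
  rw [h4]
  exact h3

theorem z0_C1 {k : ℝ} (hk : 0 < k) : ContDiff ℝ 1 (z0 k) := by
  have _ := hk
  have h4 : z0 k = GG ∘ fun x : E => k ^ 2 * ‖x‖ ^ 2 := funext fun x => z0_eq k x
  rw [h4]
  exact GG_contDiff.comp (contDiff_const.mul (contDiff_norm_sq ℝ))

/-- the radial derivative -/
noncomputable def cc (k r : ℝ) : ℝ := deriv GG (k ^ 2 * r ^ 2) * (k ^ 2 * (2 * r))

theorem cc_deriv (k r : ℝ) : HasDerivAt (fun r : ℝ => GG (k ^ 2 * r ^ 2)) (cc k r) r := by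
  have h1 : HasDerivAt (fun r : ℝ => k ^ 2 * r ^ 2) (k ^ 2 * (2 * r)) r := by
    have := (hasDerivAt_pow 2 r).const_mul (k ^ 2)
    simpa using this
  exact (GG_analytic _).differentiableAt.hasDerivAt.comp r h1

theorem sq_cc {k : ℝ} (hk : 0 < k) (r : ℝ) :
    r ^ 2 * cc k r = r * Real.cos (k * r) - Real.sin (k * r) / k := by
  have h1 : ∀ r : ℝ, GG (k ^ 2 * r ^ 2) * (k * r) = Real.sin (k * r) := by
    intro r
    rw [← mul_pow, ← sinc_eq_GG]
    by_cases h : k * r = 0
    · rw [h]; simp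
    · have hr : r ≠ 0 := right_ne_zero_of_mul h
      have hk0 := hk.ne'
      rw [Real.sinc_of_ne_zero h]; field_simp
  have h2 : HasDerivAt (fun r : ℝ => GG (k ^ 2 * r ^ 2) * (k * r))
      (cc k r * (k * r) + GG (k ^ 2 * r ^ 2) * (k * 1)) r :=
    (cc_deriv k r).mul ((hasDerivAt_id r).const_mul k)
  have h3 : HasDerivAt (fun r : ℝ => Real.sin (k * r)) (Real.cos (k * r) * (k * 1)) r :=
    (Real.hasDerivAt_sin (k * r)).comp r ((hasDerivAt_id r).const_mul k)
  have h4 : (fun r : ℝ => GG (k ^ 2 * r ^ 2) * (k * r)) = fun r : ℝ => Real.sin (k * r) :=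
    funext h1
  rw [h4] at h2
  have h5 := h2.unique h3
  have h6 := h1 r
  have h7 : r ^ 2 * cc k r * k = r * Real.cos (k * r) * k - Real.sin (k * r) := by
    rw [← h6]
    have : r * (cc k r * (k * r) + GG (k ^ 2 * r ^ 2) * (k * 1)) =
      r * (Real.cos (k * r) * (k * 1)) := by rw [h5]
    nlinarith [this]
  apply mul_right_cancel₀ hk.ne'
  rw [h7, sub_mul, div_mul_cancel₀ _ hk.ne']

theorem pd_z0 (k : ℝ) (r : ℝ) (hr : 0 ≤ r) (y : E) (hy : ‖y‖ = 1) (i : Fin 3) :
    pd (z0 k) i (r • y) = cc k r * y i := by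
  unfold pd
  rw [(z0_hasFDerivAt k (r • y)).fderiv]
  simp only [smul_apply, innerSL_apply_apply]
  rw [norm_smul, hy, mul_one, Real.norm_eq_abs, abs_of_nonneg hr, inner_smul_left,
    EuclideanSpace.inner_single_right]
  simp only [smul_eq_mul, nsmul_eq_mul, cc]
  simp
  ring

theorem gg_z0 {f : E → ℝ} (k : ℝ) (r : ℝ) (hr : 0 ≤ r) (y : E) (hy : ‖y‖ = 1) :
    gg f (z0 k) (r • y) = cc k r * fderiv ℝ f (r • y) y := by
  unfold gg
  rw [fderiv_sum, Finset.mul_sum]
  refine Finset.sum_congr rfl fun i _ => ?_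
  rw [pd_z0 k r hr y hy]
  ring

theorem sph_deriv {f : E → ℝ} (hf : ContDiff ℝ 1 f) (r : ℝ) :
    HasDerivAt (fun r : ℝ => ∫ y : S2, f (r • (y : E)) ∂sg)
      (∫ y : S2, fderiv ℝ f (r • (y : E)) (y : E) ∂sg) r := by
  have hc0 : Continuous (Function.uncurry fun (r : ℝ) (y : S2) => f (r • (y : E))) :=
    hf.continuous.comp (continuous_fst.smul (continuous_subtype_val.comp continuous_snd))
  have hc1 : Continuous (Function.uncurry fun (r : ℝ) (y : S2) =>
      fderiv ℝ f (r • (y : E)) (y : E)) :=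
    ((hf.continuous_fderiv one_ne_zero).comp
      (continuous_fst.smul (continuous_subtype_val.comp continuous_snd))).clm_apply
      (continuous_subtype_val.comp continuous_snd)
  obtain ⟨C, hC⟩ := ((isCompact_Icc (a := r - 1) (b := r + 1)).prod
    (isCompact_univ (X := S2))).exists_bound_of_continuousOn hc1.continuousOn
  have hs : Set.Icc (r - 1) (r + 1) ∈ 𝓝 r := Icc_mem_nhds (by linarith) (by linarith)
  have key := hasDerivAt_integral_of_dominated_loc_of_deriv_le (μ := sg) (𝕜 := ℝ) (x₀ := r)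
    (F := fun (r : ℝ) (y : S2) => f (r • (y : E)))
    (F' := fun (r : ℝ) (y : S2) => fderiv ℝ f (r • (y : E)) (y : E))
    (bound := fun _ => C) hs
    (Eventually.of_forall fun ρ =>
      (hc0.comp (Continuous.prodMk_right ρ)).aestronglyMeasurable)
    ((hc0.comp (Continuous.prodMk_right r)).integrable_of_hasCompactSupport
      (HasCompactSupport.of_compactSpace _))
    (hc1.comp (Continuous.prodMk_right r)).aestronglyMeasurable
    (Eventually.of_forall fun y ρ hρ => hC (ρ, y) ⟨hρ, Set.mem_univ _⟩)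
    (integrable_const C)
    (Eventually.of_forall fun y ρ _ => by
      have h1 : HasDerivAt (fun ρ : ℝ => ρ • (y : E)) (y : E) ρ := by
        simpa using (hasDerivAt_id ρ).smul_const (y : E)
      exact ((hf.differentiable one_ne_zero) (ρ • (y : E))).hasFDerivAt.comp_hasDerivAt ρ h1)
  exact key.2

theorem sph_dcont {f : E → ℝ} (hf : ContDiff ℝ 1 f) :
    Continuous (fun r : ℝ => ∫ y : S2, fderiv ℝ f (r • (y : E)) (y : E) ∂sg) := by
  have hc1 : Continuous (Function.uncurry fun (r : ℝ) (y : S2) =>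
      fderiv ℝ f (r • (y : E)) (y : E)) :=
    ((hf.continuous_fderiv one_ne_zero).comp
      (continuous_fst.smul (continuous_subtype_val.comp continuous_snd))).clm_apply
      (continuous_subtype_val.comp continuous_snd)
  have h2 := continuous_parametric_integral_of_continuous (μ := sg) hc1
    (isCompact_univ (X := S2))
  simpa using h2

theorem z0_weak {k : ℝ} (hk : 0 < k) {f : E → ℝ} (hf : ContDiff ℝ 1 f) (hc : HasCompactSupport f) :
    ∫ x, gg f (z0 k) x = k ^ 2 * ∫ x, f x * z0 k x := by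
  obtain ⟨R, hR0, hR⟩ : ∃ R : ℝ, 0 < R ∧ ∀ x : E, R ≤ ‖x‖ → x ∉ tsupport f := by
    obtain ⟨R, hR⟩ := hc.isCompact.isBounded.subset_ball (0 : E)
    refine ⟨max R 1, lt_max_of_lt_right one_pos, fun x hx hxt => ?_⟩
    have := hR hxt
    rw [mem_ball_zero_iff] at this
    exact absurd ((le_max_left R 1).trans hx) (not_le.2 this)
  have hf0 : ∀ x : E, R ≤ ‖x‖ → f x = 0 := fun x hx => image_eq_zero_of_notMem_tsupport (hR x hx)
  have hg0 : ∀ x : E, R ≤ ‖x‖ → gg f (z0 k) x = 0 := fun x hx =>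
    Finset.sum_eq_zero fun i _ => by rw [pd_zero_of (hR x hx) i, zero_mul]
  have hzc : Continuous (z0 k) := (z0_C1 hk).continuous
  have hq := polarR (F := fun x => f x * z0 k x) (hf.continuous.mul hzc) hR0.le
    (fun x hx => by simp only [hf0 x hx, zero_mul])
  rw [polarR (continuous_gg hf (z0_C1 hk)) hR0.le hg0, hq]
  have hy1 : ∀ y : S2, ‖(y : E)‖ = 1 := fun y => mem_sphere_zero_iff_norm.1 y.2
  have e1 : ∫ r in (0 : ℝ)..R, r ^ 2 * ∫ y : S2, gg f (z0 k) (r • (y : E)) ∂sg =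
      ∫ r in (0 : ℝ)..R, (r * Real.cos (k * r) - Real.sin (k * r) / k) *
        ∫ y : S2, fderiv ℝ f (r • (y : E)) (y : E) ∂sg := by
    refine intervalIntegral.integral_congr fun r hr => ?_
    rw [Set.uIcc_of_le hR0.le] at hr
    have h5 : ∫ y : S2, gg f (z0 k) (r • (y : E)) ∂sg =
        cc k r * ∫ y : S2, fderiv ℝ f (r • (y : E)) (y : E) ∂sg := by
      rw [← integral_const_mul]
      exact integral_congr_ae (Eventually.of_forall fun y => gg_z0 k r hr.1 y (hy1 y))
    change r ^ 2 * _ = _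
    rw [h5, ← sq_cc hk r, mul_assoc]
  have e2 : ∫ r in (0 : ℝ)..R, r ^ 2 * ∫ y : S2, f (r • (y : E)) * z0 k (r • (y : E)) ∂sg =
      ∫ r in (0 : ℝ)..R, (r * Real.sin (k * r) / k) * ∫ y : S2, f (r • (y : E)) ∂sg := by
    refine intervalIntegral.integral_congr fun r hr => ?_
    rw [Set.uIcc_of_le hR0.le] at hr
    have h1 : ∀ y : S2, z0 k (r • (y : E)) = Real.sinc (k * r) := by
      intro y
      unfold z0
      rw [norm_smul, hy1, mul_one, Real.norm_eq_abs, abs_of_nonneg hr.1]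
    simp only [h1]
    rw [integral_mul_const]
    have h2 : r * Real.sinc (k * r) = Real.sin (k * r) / k := by
      by_cases h : r = 0
      · subst h; simp
      · rw [Real.sinc_of_ne_zero (mul_ne_zero hk.ne' h)]; field_simp
    calc r ^ 2 * ((∫ y : S2, f (r • (y : E)) ∂sg) * Real.sinc (k * r))
        = r * (r * Real.sinc (k * r)) * ∫ y : S2, f (r • (y : E)) ∂sg := by ring
      _ = _ := by rw [h2]; ring
  have hu : ∀ r : ℝ, HasDerivAt (fun r : ℝ => r * Real.cos (k * r) - Real.sin (k * r) / k)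
      (-(k ^ 2 * (r * Real.sin (k * r) / k))) r := by
    intro r
    have h1 : HasDerivAt (fun r : ℝ => k * r) (k * 1) r := (hasDerivAt_id r).const_mul k
    have h2 := ((hasDerivAt_id r).mul ((Real.hasDerivAt_cos (k * r)).comp r h1)).sub
      (((Real.hasDerivAt_sin (k * r)).comp r h1).div_const k)
    refine h2.congr_deriv ?_
    simp only [Function.comp, id]
    field_simp
    ring
  have hv := sph_deriv hf
  have hint := intervalIntegral.integral_mul_deriv_eq_deriv_mul (a := 0) (b := R)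
    (fun r _ => hu r) (fun r _ => hv r)
    (Continuous.intervalIntegrable (by fun_prop) _ _)
    (Continuous.intervalIntegrable (sph_dcont hf) _ _)
  have hmR : ∫ y : S2, f (R • (y : E)) ∂sg = 0 := by
    have : ∀ y : S2, f (R • (y : E)) = 0 := by
      intro y
      refine hf0 _ ?_
      rw [norm_smul, hy1, mul_one, Real.norm_eq_abs, abs_of_pos hR0]
    simp [this]
  rw [e1, e2, hint, hmR]
  simp only [mul_zero, zero_mul, Real.sin_zero, zero_div, sub_zero]
  rw [← intervalIntegral.integral_const_mul, zero_sub, ← intervalIntegral.integral_neg]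
  refine intervalIntegral.integral_congr fun r _ => ?_
  ring

end Pool.Agent.H68.SI
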