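import Pool.Agent.H68.SI.Mo1
import Pool.Agent.H68.SI.Mo2

/-!
# Module Mo3 (about 120 lines): no solution near a ball with `j_1 (k ρ) ≠ 0`

PROOF. `z0_int`: `weak_global` with `ζ = z0 k` and `z0_weak` with `f = U` (`C¹`, compact support: zero
outside the bounded set `D`): `k² ∫_D (U + c) z0 = ∫ gg U (z0 k) = k² ∫ U z0 = k² ∫_D U z0` (`U = 0` outside
`D`), so `c ∫_D z0 = 0`.
`z0_ball`: by `polar` (indicator of the ball; or `integral_fun_norm_addHaar`) the integral is
`V ∫ r in 0..ρ, r² jl 0 (k r)`, `V = sg.real univ > 0` (the total mass `3 vol (ball 0 1)`), and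
`r² jl 1 (k r) / k` has derivative `r² jl 0 (k r)` (`jl_up`, `l = 0`) and limit `0` at `0`. So it is
`V ρ² jl 1 (k ρ) / k`, nonzero iff `jl 1 (k ρ) ≠ 0`.
`near_ball`: `|z0| ≤ 1`. If `ball 0 (ρ - δ) ⊆ D ⊆ ball 0 (ρ + δ)` then `|∫_D z0 - ∫_{ball 0 ρ} z0| ≤
vol (ball 0 (ρ + δ) \ ball 0 (ρ - δ)) = V/3 ((ρ + δ)³ - (ρ - δ)³)`, which is smaller than
`|∫_{ball 0 ρ} z0|` for small `δ`, contradicting `z0_int`.
-/

set_option autoImplicit false

namespace Pool.Agent.H68.SI

open Filter Topology MeasureTheory Metric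
open scoped ContDiff
open Pool.Agent.H68.SC

private theorem Mo3_out {D : Set E} {k c : ℝ} {U : E → ℝ} (h : UU D k c U) :
    HasCompactSupport U := by
  refine HasCompactSupport.intro h.bdd.isCompact_closure fun x hx => ?_
  exact (h.out x fun hD => hx (subset_closure hD)).1

theorem z0_int {D : Set E} {k c : ℝ} {U : E → ℝ} (h : UU D k c U) : ∫ x in D, z0 k x = 0 := by
  have hz := z0_C1 h.kpos
  have h1 := weak_global h hz
  have h2 := z0_weak h.kpos h.C1 (Mo3_out h)
  have hk : k ^ 2 ≠ 0 := pow_ne_zero 2 h.kpos.ne'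
  have h3 : ∫ x in D, (U x + c) * z0 k x = ∫ x, U x * z0 k x := by
    apply mul_left_cancel₀ hk
    rw [← h1, h2]
  have h4 : ∫ x in D, U x * z0 k x = ∫ x, U x * z0 k x :=
    setIntegral_eq_integral_of_forall_compl_eq_zero fun x hx => by
      rw [(h.out x hx).1, zero_mul]
  have hi1 : IntegrableOn (fun x => U x * z0 k x) D :=
    (((h.C1.continuous.mul hz.continuous).continuousOn).integrableOn_compact
      h.bdd.isCompact_closure).mono_set subset_closure
  have hi2 : IntegrableOn (fun x => c * z0 k x) D :=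
    (((continuous_const.mul hz.continuous).continuousOn).integrableOn_compact
      h.bdd.isCompact_closure).mono_set subset_closure
  have h5 : ∫ x in D, (U x + c) * z0 k x = (∫ x in D, U x * z0 k x) + c * ∫ x in D, z0 k x := by
    rw [← integral_const_mul, ← integral_add hi1 hi2]
    refine integral_congr_ae (Eventually.of_forall fun x => ?_)
    simp only
    ring
  have h6 : c * ∫ x in D, z0 k x = 0 := by linarith
  exact (mul_eq_zero.1 h6).resolve_left h.cne

private theorem Mo3_prim {k : ℝ} (hk : 0 < k) (r : ℝ) :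
    HasDerivAt (fun y : ℝ => (Real.sin (k * y) - k * y * Real.cos (k * y)) / k ^ 3)
      (r ^ 2 * Real.sinc (k * r)) r := by
  have h1 : HasDerivAt (fun y : ℝ => k * y) k r := by
    simpa using (hasDerivAt_id r).const_mul k
  have h2 := h1.sin
  have h3 := h1.cos
  have h4 := (h2.sub (h1.mul h3)).div_const (k ^ 3)
  refine h4.congr_deriv ?_
  by_cases hr : r = 0
  · subst hr; simp
  · rw [Real.sinc_of_ne_zero (mul_ne_zero hk.ne' hr)]
    field_simp
    ring

private theorem Mo3_ball {k ρ : ℝ} (hk : 0 < k) (hρ : 0 < ρ) :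
    ∫ x in ball (0 : E) ρ, z0 k x =
      3 * volume.real (ball (0 : E) 1) * (ρ ^ 2 * jl 1 (k * ρ) / k) := by
  have h1 : ∫ x in ball (0 : E) ρ, z0 k x =
      ∫ x : E, (Set.Iio ρ).indicator (fun r => Real.sinc (k * r)) ‖x‖ := by
    rw [← integral_indicator measurableSet_ball]
    refine integral_congr_ae (Eventually.of_forall fun x => ?_)
    by_cases hx : ‖x‖ < ρ
    · have hx1 : x ∈ ball (0 : E) ρ := by simpa using hx
      simp only [Set.indicator_of_mem hx1]
      rw [Set.indicator_of_mem (show ‖x‖ ∈ Set.Iio ρ from hx)]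
      rfl
    · have hx1 : x ∉ ball (0 : E) ρ := by simpa using hx
      simp only [Set.indicator_of_notMem hx1]
      rw [Set.indicator_of_notMem (show ‖x‖ ∉ Set.Iio ρ from hx)]
  have hfr : Module.finrank ℝ E = 3 := by simp
  rw [h1, integral_fun_norm_addHaar, hfr]
  have h2 : ∫ y in Set.Ioi (0 : ℝ), y ^ (3 - 1) •
      (Set.Iio ρ).indicator (fun r => Real.sinc (k * r)) y =
      ∫ y in (0 : ℝ)..ρ, y ^ 2 * Real.sinc (k * y) := by
    rw [intervalIntegral.integral_of_le hρ.le, integral_Ioc_eq_integral_Ioo,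
      ← integral_indicator measurableSet_Ioi, ← integral_indicator measurableSet_Ioo]
    refine integral_congr_ae (Eventually.of_forall fun y => ?_)
    simp only [smul_eq_mul]
    by_cases h0 : 0 < y
    · rw [Set.indicator_of_mem (show y ∈ Set.Ioi (0 : ℝ) from h0)]
      by_cases hy : y < ρ
      · rw [Set.indicator_of_mem (show y ∈ Set.Iio ρ from hy),
          Set.indicator_of_mem (show y ∈ Set.Ioo (0 : ℝ) ρ from ⟨h0, hy⟩)]
      · rw [Set.indicator_of_notMem (show y ∉ Set.Iio ρ from hy),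
          Set.indicator_of_notMem (show y ∉ Set.Ioo (0 : ℝ) ρ from fun h => hy h.2), mul_zero]
    · rw [Set.indicator_of_notMem (show y ∉ Set.Ioi (0 : ℝ) from h0),
        Set.indicator_of_notMem (show y ∉ Set.Ioo (0 : ℝ) ρ from fun h => h0 h.1)]
  have h3 : ∫ y in (0 : ℝ)..ρ, y ^ 2 * Real.sinc (k * y) = ρ ^ 2 * jl 1 (k * ρ) / k := by
    rw [intervalIntegral.integral_eq_sub_of_hasDerivAt (fun y _ => Mo3_prim hk y)]
    · simp only [jl, mul_zero, Real.sin_zero, zero_mul, sub_zero, zero_div]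
      field_simp
    · apply Continuous.intervalIntegrable
      exact (continuous_id.pow 2).mul (Real.continuous_sinc.comp (continuous_const.mul continuous_id))
  rw [h2, h3]
  simp only [smul_eq_mul, nsmul_eq_mul, Nat.cast_ofNat]
  ring

private theorem Mo3_vol {r : ℝ} (hr : 0 ≤ r) :
    volume.real (ball (0 : E) r) = r ^ 3 * volume.real (ball (0 : E) 1) := by
  have hfr : Module.finrank ℝ E = 3 := by simp
  unfold Measure.real
  rw [Measure.addHaar_ball volume (0 : E) hr, ENNReal.toReal_mul, hfr,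
    ENNReal.toReal_ofReal (by positivity)]

theorem near_ball {k ρ : ℝ} (hk : 0 < k) (hρ : 0 < ρ) (h1 : jl 1 (k * ρ) ≠ 0) :
    ∃ δ : ℝ, 0 < δ ∧ ∀ (D : Set E) (c : ℝ) (U : E → ℝ), UU D k c U → ball 0 (ρ - δ) ⊆ D →
      D ⊆ ball 0 (ρ + δ) → False := by
  set v : ℝ := volume.real (ball (0 : E) 1) with hv
  have hv0 : 0 < v := by
    refine ENNReal.toReal_pos (measure_ball_pos volume (0 : E) one_pos).ne' ?_
    exact measure_ball_lt_top.ne
  set A : ℝ := |∫ x in ball (0 : E) ρ, z0 k x| with hA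
  have hA0 : 0 < A := by
    rw [hA, Mo3_ball hk hρ, abs_pos]
    have : ρ ^ 2 * jl 1 (k * ρ) / k ≠ 0 :=
      div_ne_zero (mul_ne_zero (pow_ne_zero 2 hρ.ne') h1) hk.ne'
    exact mul_ne_zero (mul_ne_zero three_ne_zero hv0.ne') this
  have hδ0 : 0 < min (ρ / 2) (A / (16 * ρ ^ 2 * v)) := lt_min (by positivity) (by positivity)
  have hδ1 : min (ρ / 2) (A / (16 * ρ ^ 2 * v)) ≤ ρ / 2 := min_le_left _ _
  have hδ2 : min (ρ / 2) (A / (16 * ρ ^ 2 * v)) ≤ A / (16 * ρ ^ 2 * v) := min_le_right _ _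
  generalize min (ρ / 2) (A / (16 * ρ ^ 2 * v)) = δ at hδ0 hδ1 hδ2
  refine ⟨δ, hδ0, fun D c U h hD1 hD2 => ?_⟩
  have hz := z0_C1 hk
  have hDm : MeasurableSet D := h.opn.measurableSet
  have hint : ∀ B : Set E, Bornology.IsBounded B → IntegrableOn (fun x => z0 k x) B := fun B hB =>
    ((hz.continuous.continuousOn).integrableOn_compact hB.isCompact_closure).mono_set
      subset_closure
  have hzD : ∫ x in D, z0 k x = 0 := z0_int h
  set Sh : Set E := ball (0 : E) (ρ + δ) \ ball (0 : E) (ρ - δ) with hSh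
  have hShm : MeasurableSet Sh := measurableSet_ball.diff measurableSet_ball
  have hShfin : volume Sh ≠ ⊤ :=
    ((measure_mono Set.sdiff_subset).trans_lt measure_ball_lt_top).ne
  have hvol : volume.real Sh = v * ((ρ + δ) ^ 3 - (ρ - δ) ^ 3) := by
    rw [hSh, measureReal_sdiff (ball_subset_ball (by linarith)) measurableSet_ball
      measure_ball_lt_top.ne, Mo3_vol (show 0 ≤ ρ + δ by linarith),
      Mo3_vol (show 0 ≤ ρ - δ by linarith), hv]
    ring
  have hle : A ≤ volume.real Sh := by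
    have e1 : ∫ x in ball (0 : E) ρ, z0 k x = ∫ x, ((ball (0 : E) ρ).indicator (z0 k) x -
        D.indicator (z0 k) x) := by
      rw [integral_sub ((integrable_indicator_iff measurableSet_ball).2 (hint _ isBounded_ball))
        ((integrable_indicator_iff hDm).2 (hint _ h.bdd)), integral_indicator measurableSet_ball,
        integral_indicator hDm, hzD, sub_zero]
    rw [hA, e1]
    have e2 : volume.real Sh = ∫ x, Sh.indicator (fun _ => (1 : ℝ)) x := by
      rw [integral_indicator hShm]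
      simp
    rw [e2, ← Real.norm_eq_abs]
    refine norm_integral_le_of_norm_le ((integrable_indicator_iff hShm).2
      (integrableOn_const hShfin)) (Eventually.of_forall fun x => ?_)
    have habs : |z0 k x| ≤ 1 := Real.abs_sinc_le_one _
    by_cases hx1 : x ∈ ball (0 : E) (ρ - δ)
    · rw [Set.indicator_of_mem (hD1 hx1), Set.indicator_of_mem
        (ball_subset_ball (by linarith) hx1), sub_self, norm_zero]
      exact Set.indicator_nonneg (fun _ _ => zero_le_one) x
    · by_cases hx2 : x ∈ ball (0 : E) (ρ + δ)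
      · rw [Set.indicator_of_mem (show x ∈ Sh from ⟨hx2, hx1⟩), Real.norm_eq_abs]
        by_cases b1 : x ∈ ball (0 : E) ρ
        · by_cases b2 : x ∈ D
          · rw [Set.indicator_of_mem b1, Set.indicator_of_mem b2, sub_self]; simp
          · rw [Set.indicator_of_mem b1, Set.indicator_of_notMem b2, sub_zero]; exact habs
        · by_cases b2 : x ∈ D
          · rw [Set.indicator_of_notMem b1, Set.indicator_of_mem b2, zero_sub, abs_neg]; exact habs
          · rw [Set.indicator_of_notMem b1, Set.indicator_of_notMem b2, sub_self]; simp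
      · rw [Set.indicator_of_notMem (fun hb => hx2 (ball_subset_ball (by linarith) hb)),
          Set.indicator_of_notMem (fun hb => hx2 (hD2 hb)), sub_self, norm_zero]
        exact Set.indicator_nonneg (fun _ _ => zero_le_one) x
  rw [hvol] at hle
  rw [le_div_iff₀ (by positivity)] at hδ2
  have h5 : (ρ + δ) ^ 3 - (ρ - δ) ^ 3 = 6 * ρ ^ 2 * δ + 2 * δ ^ 3 := by ring
  have h6 : δ ^ 2 ≤ ρ ^ 2 := pow_le_pow_left₀ hδ0.le (by linarith) 2
  have h7 : 2 * δ ^ 3 ≤ 2 * (ρ ^ 2 * δ) := by nlinarith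
  have h8 : v * ((ρ + δ) ^ 3 - (ρ - δ) ^ 3) ≤ v * (8 * ρ ^ 2 * δ) := by
    refine mul_le_mul_of_nonneg_left ?_ hv0.le
    rw [h5]
    linarith
  have h9 : 2 * (v * (8 * ρ ^ 2 * δ)) ≤ A := by
    calc 2 * (v * (8 * ρ ^ 2 * δ)) = δ * (16 * ρ ^ 2 * v) := by ring
      _ ≤ A := hδ2
  linarith

end Pool.Agent.H68.SI
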